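import Pool.Agent.Lib.MP_464db4_gt.KT.Defs

/-!
# KT-Bas: the forms `s e^u / y²` and the cohomology classes of the curve
* `coh_hyp`: the proof of `YT.curve` (YT-Curve): `exists_const` and the primitive `fun x _ => sumE Γ φ x`, word by word.
* `coh_symm`: `e ↦ -e`; `coh_trans`: `e + e'`; `coh_smul`: `e ↦ s • e` (real `s`): `dz`, `dzbar` are additive and homogeneous on differentiable functions.
* `bet_isKahler`: as `hyp_isKahler` in YT-Hyp, `u` smooth and invariant.
* `bet_dd`: `logdet (bet s u) x = log s + u x - 2 log y` on the half plane, `dz dzbar (-2 log y) = 1/(2 y²)` (the computation in `scal_hyp`, YT-Hyp; or from `scal_hyp` itself with `c = 1`).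
* `bet_inv`: `(bet s u x)⁻¹ () () = y² / (s e^u)`.
* `exists_scale`: `coh_hyp` for `g` gives `c`, for `bet 1 u` gives `c₁`; `s = c / c₁`, `bet s u = s • bet 1 u ~ hyp (s c₁) = hyp c`.
-/

namespace YT

open Complex Matrix MeasureTheory
open scoped ContDiff ComplexConjugate ComplexOrder

variable {ι : Type} [Fintype ι] [DecidableEq ι] {U : Set (ι → ℂ)} {S : Set ((ι → ℂ) → (ι → ℂ))} {g₁ g₂ g₃ : (ι → ℂ) → Matrix ι ι ℂ}
  {Γ : Subgroup (Matrix.SpecialLinearGroup (Fin 2) ℝ)} {g : (Unit → ℂ) → Matrix Unit Unit ℂ} {u : (Unit → ℂ) → ℝ} {s : ℝ} {x : Unit → ℂ}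

private theorem Bas_dz_neg (i : ι) (f : (ι → ℂ) → ℂ) (x : ι → ℂ) : dz i (fun y => -f y) x = -dz i f x := by
  unfold dz
  rw [fderiv_fun_neg]
  simp only [_root_.neg_apply]
  ring

private theorem Bas_dzbar_neg (i : ι) (f : (ι → ℂ) → ℂ) (x : ι → ℂ) : dzbar i (fun y => -f y) x = -dzbar i f x := by
  unfold dzbar
  rw [fderiv_fun_neg]
  simp only [_root_.neg_apply]
  ring

omit [DecidableEq ι] in
private theorem Bas_diff {f : (ι → ℂ) → ℂ} (hU : IsOpen U) (hf : ContDiffOn ℝ ∞ f U) {x : ι → ℂ} (hx : x ∈ U) :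
    DifferentiableAt ℝ f x :=
  (hf.contDiffAt (hU.mem_nhds hx)).differentiableAt (by simp)

theorem coh_symm (hU : IsOpen U) (h : Cohomologous U S g₁ g₂) : Cohomologous U S g₂ g₁ := by
  obtain ⟨e, he⟩ := h
  refine ⟨fun x i => -e x i, fun i => (he.smooth i).neg, ?_, ?_, ?_⟩
  · intro F hF x hx i
    simp only [neg_mul, Finset.sum_neg_distrib]
    rw [he.inv F hF x hx i]
  · intro x hx i j
    rw [Bas_dz_neg, Bas_dz_neg, he.sym x hx i j]
  · intro x hx i j
    have h1 := he.eq x hx i j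
    have h2 : dz i (fun y => conj (-e y j)) x = -dz i (fun y => conj (e y j)) x := by
      rw [← Bas_dz_neg]
      simp only [map_neg]
    rw [h2, Bas_dzbar_neg]
    linear_combination -h1

theorem coh_trans (hU : IsOpen U) (h : Cohomologous U S g₁ g₂) (h' : Cohomologous U S g₂ g₃) : Cohomologous U S g₁ g₃ := by
  obtain ⟨e, he⟩ := h
  obtain ⟨e', he'⟩ := h'
  refine ⟨fun x i => e x i + e' x i, fun i => (he.smooth i).add (he'.smooth i), ?_, ?_, ?_⟩
  · intro F hF x hx i
    simp only [add_mul, Finset.sum_add_distrib]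
    rw [he.inv F hF x hx i, he'.inv F hF x hx i]
  · intro x hx i j
    rw [dz_add i (Bas_diff hU (he.smooth j) hx) (Bas_diff hU (he'.smooth j) hx),
      dz_add j (Bas_diff hU (he.smooth i) hx) (Bas_diff hU (he'.smooth i) hx), he.sym x hx i j, he'.sym x hx i j]
  · intro x hx i j
    have h1 := he.eq x hx i j
    have h1' := he'.eq x hx i j
    have h2 : dz i (fun y => conj (e y j + e' y j)) x =
        dz i (fun y => conj (e y j)) x + dz i (fun y => conj (e' y j)) x := by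
      rw [← dz_add i (Bas_diff hU (conj_contDiffOn (he.smooth j)) hx)
        (Bas_diff hU (conj_contDiffOn (he'.smooth j)) hx)]
      simp only [map_add]
    rw [h2, dzbar_add j (Bas_diff hU (he.smooth i) hx) (Bas_diff hU (he'.smooth i) hx)]
    linear_combination h1 + h1'

theorem coh_smul (hU : IsOpen U) (h : Cohomologous U S g₁ g₂) (s : ℝ) :
    Cohomologous U S (fun x => ((s : ℝ) : ℂ) • g₁ x) (fun x => ((s : ℝ) : ℂ) • g₂ x) := by
  obtain ⟨e, he⟩ := h
  refine ⟨fun x i => (s : ℂ) * e x i, fun i => contDiffOn_const.mul (he.smooth i), ?_, ?_, ?_⟩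
  · intro F hF x hx i
    simp only [mul_assoc]
    rw [← Finset.mul_sum, he.inv F hF x hx i]
  · intro x hx i j
    rw [dz_const_mul i (s : ℂ) (Bas_diff hU (he.smooth j) hx),
      dz_const_mul j (s : ℂ) (Bas_diff hU (he.smooth i) hx), he.sym x hx i j]
  · intro x hx i j
    have h1 := he.eq x hx i j
    have h2 : dz i (fun y => conj ((s : ℂ) * e y j)) x = (s : ℂ) * dz i (fun y => conj (e y j)) x := by
      rw [← dz_const_mul i (s : ℂ) (Bas_diff hU (conj_contDiffOn (he.smooth j)) hx)]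
      simp only [map_mul, Complex.conj_ofReal]
    rw [h2, dzbar_const_mul j (s : ℂ) (Bas_diff hU (he.smooth i) hx)]
    simp only [Matrix.smul_apply, smul_eq_mul]
    linear_combination (s : ℂ) * h1

private theorem Bas_real (hg : IsKahler halfPlane (mobs Γ) g) {x : Unit → ℂ} (hx : x ∈ halfPlane) :
    (((g x () ()).re : ℝ) : ℂ) = g x () () := by
  have h1 := (hg.pos x hx).isHermitian.apply () ()
  exact Complex.conj_eq_iff_re.mp h1

theorem coh_hyp (hΓ : CocompactFuchsian Γ) (hg : IsKahler halfPlane (mobs Γ) g) : ∃ c : ℝ, 0 < c ∧ Cohomologous halfPlane (mobs Γ) g (hyp c) := by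
  obtain ⟨c, hc, φ, hφ, ⟨K, hK, hKH, h0⟩, hφF⟩ := exists_const hΓ hg
  refine ⟨c, hc, fun x _ => sumE Γ φ x, ?_, ?_, ?_, ?_⟩
  · intro i
    exact sumE_smooth hΓ hφ hK hKH h0
  · rintro F ⟨δ, hδ, rfl⟩ x hx i
    rw [Fintype.sum_unique, jac_mob δ hx]
    exact sumE_inv hΓ hK hKH h0 hδ hx
  · intro x hx i j
    rfl
  · intro x hx i j
    have h1 := sumE_dzbar hΓ hφ hK hKH h0 hx
    rw [hφF x hx] at h1
    cases i
    cases j
    rw [dz_conj]
    have h2 : -I * (conj (dzbar () (sumE Γ φ) x) - dzbar () (sumE Γ φ) x) =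
        ((-2 * (dzbar () (sumE Γ φ) x).im : ℝ) : ℂ) := by
      apply Complex.ext <;> simp
      ring
    refine Eq.trans ?_ h2.symm
    rw [h1, ← Bas_real hg hx]
    simp [hyp]

private noncomputable def Bas_L : (Unit → ℂ) →L[ℝ] ℝ :=
  Complex.imCLM.comp (ContinuousLinearMap.proj (R := ℝ) (φ := fun _ : Unit => ℂ) ())

theorem bet_isKahler (hs : 0 < s) (hu : ContDiffOn ℝ ∞ u halfPlane) (hi : ∀ γ ∈ Γ, ∀ x ∈ halfPlane, u (mob γ x) = u x) :
    IsKahler halfPlane (mobs Γ) (bet s u) := by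
  refine ⟨?_, ?_, ?_, ?_⟩
  · intro i j
    have h1 : ContDiffOn ℝ ∞ (fun x : Unit → ℂ => (s * Real.exp (u x) / (x ()).im ^ 2 : ℝ)) halfPlane := by
      have h2 : ContDiff ℝ ∞ (fun x : Unit → ℂ => (x ()).im) := Bas_L.contDiff
      refine (contDiffOn_const.mul (Real.contDiff_exp.comp_contDiffOn hu)).div (h2.contDiffOn.pow 2) ?_
      intro x hx
      have hx' : 0 < (x ()).im := hx
      positivity
    exact Complex.ofRealCLM.contDiff.comp_contDiffOn h1
  · intro x hx
    have hx' : 0 < (x ()).im := hx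
    have h1 : bet s u x = Matrix.diagonal (fun _ : Unit => ((s * Real.exp (u x) / (x ()).im ^ 2 : ℝ) : ℂ)) := by
      ext i j
      have : i = j := Subsingleton.elim _ _
      subst this
      rw [Matrix.diagonal_apply_eq]
      rfl
    rw [h1]
    refine Matrix.PosDef.diagonal ?_
    intro i
    have : (0 : ℝ) < s * Real.exp (u x) / (x ()).im ^ 2 := by positivity
    exact_mod_cast this
  · intro x _ i j k
    rfl
  · rintro F ⟨γ, hγ, rfl⟩ x hx
    have hx' : 0 < (x ()).im := hx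
    have hm := mj_ne γ hx
    have hn : 0 < ‖mj γ x‖ := norm_pos_iff.2 hm
    ext i j
    have e : ((jac (mob γ) x)ᵀ * bet s u (mob γ x) * mconj (jac (mob γ) x)) i j =
        mj γ x * ((s * Real.exp (u (mob γ x)) / (mob γ x ()).im ^ 2 : ℝ) : ℂ) * conj (mj γ x) := by
      simp only [Matrix.mul_apply, Finset.univ_unique, Finset.sum_singleton,
        Matrix.transpose_apply, mconj, Matrix.map_apply, jac_mob γ hx]
      rfl
    rw [e, im_mob γ hx, hi γ hγ x hx]
    have e2 : mj γ x * ((s * Real.exp (u x) / ((x ()).im * ‖mj γ x‖) ^ 2 : ℝ) : ℂ) * conj (mj γ x) =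
        ((s * Real.exp (u x) / ((x ()).im * ‖mj γ x‖) ^ 2 : ℝ) : ℂ) * (mj γ x * conj (mj γ x)) := by ring
    rw [e2, Complex.mul_conj, Complex.normSq_eq_norm_sq]
    have e3 : (s * Real.exp (u x) / ((x ()).im * ‖mj γ x‖) ^ 2) * ‖mj γ x‖ ^ 2 = s * Real.exp (u x) / (x ()).im ^ 2 := by
      field_simp
    rw [← Complex.ofReal_mul, e3]
    rfl

private theorem Bas_inv1 (A : Matrix Unit Unit ℂ) : A⁻¹ () () = (A () ())⁻¹ := by
  rw [Matrix.inv_def, Matrix.det_unique, Matrix.adjugate_subsingleton, Matrix.smul_apply,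
    Matrix.one_apply_eq, smul_eq_mul, mul_one, Ring.inverse_eq_inv']

theorem bet_inv (hs : 0 < s) (hx : x ∈ halfPlane) : (bet s u x)⁻¹ () () = (((x ()).im ^ 2 / (s * Real.exp (u x)) : ℝ) : ℂ) := by
  rw [Bas_inv1]
  have : bet s u x () () = ((s * Real.exp (u x) / (x ()).im ^ 2 : ℝ) : ℂ) := rfl
  rw [this, ← Complex.ofReal_inv, inv_div]

theorem bet_dd (hs : 0 < s) (hu : ContDiffOn ℝ ∞ u halfPlane) (hx : x ∈ halfPlane) :
    dz () (fun y => dzbar () (logdet (bet s u)) y) x =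
      dz () (fun y => dzbar () (fun y => ((u y : ℝ) : ℂ)) y) x + ((1 / (2 * (x ()).im ^ 2) : ℝ) : ℂ) := by
  have hx' : 0 < (x ()).im := hx
  have hu' : ContDiffOn ℝ ∞ (fun y : Unit → ℂ => ((u y : ℝ) : ℂ)) halfPlane :=
    Complex.ofRealCLM.contDiff.comp_contDiffOn hu
  have hL : ∀ y : Unit → ℂ, logdet (hyp s) y = ((Real.log (s / (y ()).im ^ 2) : ℝ) : ℂ) := by
    intro y
    rw [logdet, Matrix.det_unique]
    rfl
  have hl : ContDiffOn ℝ ∞ (logdet (hyp s)) halfPlane := by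
    have h1 : ContDiffOn ℝ ∞ (fun x : Unit → ℂ => (s / (x ()).im ^ 2 : ℝ)) halfPlane := by
      have h2 : ContDiff ℝ ∞ (fun x : Unit → ℂ => (x ()).im) := Bas_L.contDiff
      refine contDiffOn_const.div (h2.contDiffOn.pow 2) ?_
      intro x hx
      have hx' : 0 < (x ()).im := hx
      positivity
    have h3 : ContDiffOn ℝ ∞ (fun x : Unit → ℂ => Real.log (s / (x ()).im ^ 2)) halfPlane := by
      refine h1.log ?_
      intro x hx
      have hx' : 0 < (x ()).im := hx
      positivity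
    exact (Complex.ofRealCLM.contDiff.comp_contDiffOn h3).congr fun y _ => hL y
  have hsum : ∀ y ∈ halfPlane, logdet (bet s u) y = ((u y : ℝ) : ℂ) + logdet (hyp s) y := by
    intro y hy
    have hy' : 0 < (y ()).im := hy
    rw [hL]
    have h1 : logdet (bet s u) y = ((Real.log (s * Real.exp (u y) / (y ()).im ^ 2) : ℝ) : ℂ) := by
      rw [logdet, Matrix.det_unique]
      rfl
    have h2 : s * Real.exp (u y) / (y ()).im ^ 2 = Real.exp (u y) * (s / (y ()).im ^ 2) := by ring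
    rw [h1, h2, Real.log_mul (Real.exp_pos _).ne' (by positivity), Real.log_exp]
    push_cast
    ring
  have hbar : ∀ y ∈ halfPlane, dzbar () (logdet (bet s u)) y =
      dzbar () (fun y => ((u y : ℝ) : ℂ)) y + dzbar () (logdet (hyp s)) y := by
    intro y hy
    rw [dzbar_congr_on isOpen_halfPlane hsum hy (),
      dzbar_add () (Bas_diff isOpen_halfPlane hu' hy) (Bas_diff isOpen_halfPlane hl hy)]
  rw [dz_congr_on isOpen_halfPlane hbar hx (),
    dz_add () (Bas_diff isOpen_halfPlane (dzbar_contDiffOn isOpen_halfPlane hu' ()) hx)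
      (Bas_diff isOpen_halfPlane (dzbar_contDiffOn isOpen_halfPlane hl ()) hx)]
  congr 1
  have h1 := scal_hyp hs hx
  rw [scal] at h1
  simp only [Finset.univ_unique, Finset.sum_singleton] at h1
  have h2 : (hyp s x)⁻¹ default default = (((x ()).im ^ 2 / s : ℝ) : ℂ) := by
    have h3 := Bas_inv1 (hyp s x)
    have h4 : hyp s x () () = ((s / (x ()).im ^ 2 : ℝ) : ℂ) := rfl
    rw [h4, ← Complex.ofReal_inv, inv_div] at h3
    exact h3
  rw [h2] at h1
  have h3 : (((x ()).im ^ 2 / s : ℝ) : ℂ) * dz () (fun y => dzbar () (logdet (hyp s)) y) x = ((1 / (2 * s) : ℝ) : ℂ) := by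
    have h4 : (((x ()).im ^ 2 / s : ℝ) : ℂ) * dz () (fun y => dzbar () (logdet (hyp s)) y) x = -((-1 / (2 * s) : ℝ) : ℂ) := by
      rw [← h1, neg_neg]
    rw [h4]
    push_cast
    ring
  have hxc : ((x ()).im : ℂ) ≠ 0 := by exact_mod_cast hx'.ne'
  have hsc : (s : ℂ) ≠ 0 := by exact_mod_cast hs.ne'
  push_cast at h3 ⊢
  field_simp at h3 ⊢
  linear_combination h3

theorem exists_scale (hΓ : CocompactFuchsian Γ) (hg : IsKahler halfPlane (mobs Γ) g) (hu : ContDiffOn ℝ ∞ u halfPlane)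
    (hi : ∀ γ ∈ Γ, ∀ x ∈ halfPlane, u (mob γ x) = u x) : ∃ s : ℝ, 0 < s ∧ Cohomologous halfPlane (mobs Γ) g (bet s u) := by
  obtain ⟨c, hc, h1⟩ := coh_hyp hΓ hg
  obtain ⟨c₁, hc₁, h2⟩ := coh_hyp hΓ (bet_isKahler (s := 1) one_pos hu hi)
  refine ⟨c / c₁, div_pos hc hc₁, ?_⟩
  have h3 := coh_smul isOpen_halfPlane h2 (c / c₁)
  have e1 : (fun x => ((c / c₁ : ℝ) : ℂ) • bet 1 u x) = bet (c / c₁) u := by
    funext x
    ext i j
    simp only [Matrix.smul_apply, smul_eq_mul, bet, Matrix.of_apply]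
    rw [← Complex.ofReal_mul]
    congr 1
    ring
  have e2 : (fun x => ((c / c₁ : ℝ) : ℂ) • hyp c₁ x) = hyp c := by
    funext x
    ext i j
    simp only [Matrix.smul_apply, smul_eq_mul, hyp, Matrix.of_apply]
    rw [← Complex.ofReal_mul]
    congr 1
    field_simp
  rw [e1, e2] at h3
  exact coh_trans isOpen_halfPlane h1 (coh_symm isOpen_halfPlane h3)

end YT
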