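import Pool.Agent.Lib.MP_464db4_gt.YT.Curve
import Pool.Agent.Lib.MP_464db4_gt.YT.ScalM

/-!
# KT-Defs: semi-flat Kaehler forms over a compact hyperbolic curve, definitions
-/

namespace YT

open Complex Matrix MeasureTheory
open scoped ContDiff ComplexConjugate ComplexOrder

section semiflat

variable {κ : Type} [Fintype κ] [DecidableEq κ]

/-- `S` is a set of holomorphic maps of `ℍ × ℂ^κ` covering the Moebius transformations of `Γ`, and all of these are covered. -/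
structure Covers (Γ : Subgroup (Matrix.SpecialLinearGroup (Fin 2) ℝ)) (S : Set ((Unit ⊕ κ → ℂ) → (Unit ⊕ κ → ℂ))) : Prop where
  hol : ∀ F ∈ S, DifferentiableOn ℂ F (tot κ halfPlane)
  down : ∀ F ∈ S, ∃ γ ∈ Γ, ∀ x ∈ tot κ halfPlane, bas (F x) = mob γ (bas x)
  up : ∀ γ ∈ Γ, ∃ F ∈ S, ∀ x ∈ tot κ halfPlane, bas (F x) = mob γ (bas x)

/-- The form is semi-flat: the block of the fibre directions and the determinant depend only on the base point. -/
structure IsSemiFlat (gm : (Unit ⊕ κ → ℂ) → Matrix (Unit ⊕ κ) (Unit ⊕ κ) ℂ) : Prop where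
  vert : ∀ x ∈ tot κ halfPlane, (gm x).toBlocks₂₂ = (gm (pt (bas x) 0)).toBlocks₂₂
  det : ∀ x ∈ tot κ halfPlane, (gm x).det = (gm (pt (bas x) 0)).det

/-- The block of the fibre directions, as a function on the base. -/
noncomputable def hv (gm : (Unit ⊕ κ → ℂ) → Matrix (Unit ⊕ κ) (Unit ⊕ κ) ℂ) (b : Unit → ℂ) : Matrix κ κ ℂ := (gm (pt b 0)).toBlocks₂₂

/-- `log det` of a matrix valued function on the base. -/
noncomputable def ldm (h : (Unit → ℂ) → Matrix κ κ ℂ) (b : Unit → ℂ) : ℂ := ((Real.log (h b).det.re : ℝ) : ℂ)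

/-- `∂∂̄ log det` of the block of the fibre directions. -/
noncomputable def ww (gm : (Unit ⊕ κ → ℂ) → Matrix (Unit ⊕ κ) (Unit ⊕ κ) ℂ) (b : Unit → ℂ) : ℂ :=
  dz () (fun y => dzbar () (ldm (hv gm)) y) b

/-- The form `gm + π^* (β' - β)`, `β` the Schur complement of `gm`. -/
noncomputable def glueK (gm : (Unit ⊕ κ → ℂ) → Matrix (Unit ⊕ κ) (Unit ⊕ κ) ℂ) (β' : (Unit → ℂ) → Matrix Unit Unit ℂ) (x : Unit ⊕ κ → ℂ) :
    Matrix (Unit ⊕ κ) (Unit ⊕ κ) ℂ :=
  gm x + fromBlocks (β' (bas x) - schur gm (bas x)) 0 0 0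

/-- The form `s e^u / y²` on the half plane. -/
noncomputable def bet (s : ℝ) (u : (Unit → ℂ) → ℝ) (x : Unit → ℂ) : Matrix Unit Unit ℂ :=
  Matrix.of fun _ _ => ((s * Real.exp (u x) / (x ()).im ^ 2 : ℝ) : ℂ)

end semiflat

end YT
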