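import Pool.Agent.Lib.MP_464db4_gt.KT.Sch

/-!
# KT-Glue: gluing a form of the curve into the total space

The form `glueK gm β'` is a Kaehler form of the total space with Schur complement `β'`, and a primitive of `β' - schur gm` on the curve gives a primitive of `glueK gm β' - gm`.
-/

namespace YT

open Complex Matrix MeasureTheory
open scoped ContDiff ComplexConjugate ComplexOrder

variable {κ : Type} [Fintype κ] [DecidableEq κ] {Γ : Subgroup (Matrix.SpecialLinearGroup (Fin 2) ℝ)}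
  {S : Set ((Unit ⊕ κ → ℂ) → (Unit ⊕ κ → ℂ))} {gm : (Unit ⊕ κ → ℂ) → Matrix (Unit ⊕ κ) (Unit ⊕ κ) ℂ}
  {β' : (Unit → ℂ) → Matrix Unit Unit ℂ} {x : Unit ⊕ κ → ℂ} {b : Unit → ℂ}

private theorem Glue_corr (i j : Unit ⊕ κ) (x : Unit ⊕ κ → ℂ) : glueK gm β' x i j = gm x i j + asmCorr gm β' x i j := by
  rfl

theorem glueK_eq (hg : IsKahler (tot κ halfPlane) S gm) (hs : IsSemiFlat gm) (hx : x ∈ tot κ halfPlane) :
    glueK gm β' x = fromBlocks (β' (bas x) + (gm x).toBlocks₁₂ * (hv gm (bas x))⁻¹ * ((gm x).toBlocks₁₂)ᴴ)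
      (gm x).toBlocks₁₂ ((gm x).toBlocks₁₂)ᴴ (hv gm (bas x)) := by
  have h := blk_eq hg hs hx
  generalize (gm x).toBlocks₁₂ = Q at h
  unfold glueK
  rw [h, fromBlocks_add]
  congr 1
  · abel
  · rw [add_zero]
  · rw [add_zero]
  · rw [add_zero]

private theorem Glue_smooth (hS : Covers Γ S) (hg : IsKahler (tot κ halfPlane) S gm) (hs : IsSemiFlat gm)
    (hβ : IsKahler halfPlane (mobs Γ) β') (i j : Unit ⊕ κ) : ContDiffOn ℝ ∞ (fun x => asmCorr gm β' x i j) (tot κ halfPlane) := by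
  rcases i with i | i <;> rcases j with j | j
  · exact (contDiffOn_bas (hβ.smooth i j)).sub (contDiffOn_bas ((schurK_isKahler hS hg hs).smooth i j))
  all_goals exact contDiffOn_const

private theorem Glue_closed (hS : Covers Γ S) (hg : IsKahler (tot κ halfPlane) S gm) (hs : IsSemiFlat gm)
    (hβ : IsKahler halfPlane (mobs Γ) β') (hx : x ∈ tot κ halfPlane) (i j k : Unit ⊕ κ) :
    dz k (fun y => asmCorr gm β' y i j) x = dz i (fun y => asmCorr gm β' y k j) x := by
  have hσ := schurK_isKahler hS hg hs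
  have hb : bas x ∈ halfPlane := hx
  have h1 : ∀ i j, DifferentiableAt ℝ (fun b => β' b i j) (bas x) := fun i j => asm_diff isOpen_halfPlane (hβ.smooth i j) hb
  have h2 : ∀ i j, DifferentiableAt ℝ (fun b => schur gm b i j) (bas x) := fun i j =>
    asm_diff isOpen_halfPlane (hσ.smooth i j) hb
  have h3 : ∀ i j, DifferentiableAt ℝ (fun b => β' b i j - schur gm b i j) (bas x) := fun i j => (h1 i j).fun_sub (h2 i j)
  have e1 : ∀ i j, (fun y : Unit ⊕ κ → ℂ => asmCorr gm β' y (Sum.inl i) (Sum.inl j)) =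
      fun y => (fun b => β' b i j - schur gm b i j) (bas y) := fun i j => rfl
  have e2 : ∀ i j, (fun y : Unit ⊕ κ → ℂ => asmCorr gm β' y (Sum.inr i) j) = fun _ => 0 := by
    intro i j
    rcases j with j | j <;> rfl
  have e3 : ∀ i j, (fun y : Unit ⊕ κ → ℂ => asmCorr gm β' y i (Sum.inr j)) = fun _ => 0 := by
    intro i j
    rcases i with i | i <;> rfl
  rcases j with j | j
  · rcases i with i | i <;> rcases k with k | k
    · rfl
    · rw [e1, e2, dz_const, dz_bas_inr (h3 i j)]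
    · rw [e1, e2, dz_const, dz_bas_inr (h3 k j)]
    · rw [e2, e2, dz_const, dz_const]
  · rw [e3, e3, dz_const, dz_const]

private theorem Glue_jac (γ : Matrix.SpecialLinearGroup (Fin 2) ℝ) (hb : b ∈ halfPlane) :
    (Matrix.of fun _ _ => mj γ b : Matrix Unit Unit ℂ) = jac (mob γ) b := by
  ext i j
  exact (jac_mob γ hb i j).symm

theorem glueK_isKahler (hS : Covers Γ S) (hg : IsKahler (tot κ halfPlane) S gm) (hs : IsSemiFlat gm) (hβ : IsKahler halfPlane (mobs Γ) β') :
    IsKahler (tot κ halfPlane) S (glueK gm β') := by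
  refine ⟨fun i j => ?_, fun x hx => ?_, fun x hx i j k => ?_, fun F hF x hx => ?_⟩
  · exact (hg.smooth i j).add (Glue_smooth hS hg hs hβ i j)
  · have hb : bas x ∈ halfPlane := hx
    rw [glueK_eq hg hs hx]
    exact glue_posDef (hβ.pos _ hb) (hv_posDef hg hb)
  · have hU : IsOpen (tot κ halfPlane) := isOpen_tot isOpen_halfPlane
    have d1 : ∀ i j, DifferentiableAt ℝ (fun y => gm y i j) x := fun i j =>
      ((hg.smooth i j).contDiffAt (hU.mem_nhds hx)).differentiableAt (by simp)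
    have d2 : ∀ i j, DifferentiableAt ℝ (fun y => asmCorr gm β' y i j) x := fun i j =>
      ((Glue_smooth hS hg hs hβ i j).contDiffAt (hU.mem_nhds hx)).differentiableAt (by simp)
    rw [dz_congr_on hU (fun y _ => Glue_corr i j y) hx k,
      dz_congr_on hU (fun y _ => Glue_corr k j y) hx i, dz_add _ (d1 i j) (d2 i j), dz_add _ (d1 k j) (d2 k j),
      hg.closed x hx, Glue_closed hS hg hs hβ hx]
  · have hb : bas x ∈ halfPlane := hx
    obtain ⟨γ, hγ, hF'⟩ := hS.down F hF
    have h1 := hg.inv F hF x hx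
    have h2 := hβ.inv (mob γ) ⟨γ, hγ, rfl⟩ (bas x) hb
    have h3 := (schurK_isKahler hS hg hs).inv (mob γ) ⟨γ, hγ, rfl⟩ (bas x) hb
    have hJ := covers_jac hF' hx
    rw [Glue_jac γ hb] at hJ
    generalize (jac F x).toBlocks₂₁ = C at hJ
    generalize (jac F x).toBlocks₂₂ = A at hJ
    unfold glueK
    rw [hF' x hx, mul_add, add_mul, h1, hJ, asm_corr_block, mul_sub, sub_mul, h2, h3]

theorem glueK_coh (hS : Covers Γ S) (hg : IsKahler (tot κ halfPlane) S gm) (hs : IsSemiFlat gm) (hβ : IsKahler halfPlane (mobs Γ) β')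
    (hc : Cohomologous halfPlane (mobs Γ) (schur gm) β') : Cohomologous (tot κ halfPlane) S gm (glueK gm β') := by
  obtain ⟨ε, hε⟩ := hc
  refine ⟨fun x => Sum.elim (ε (bas x)) 0, ?_⟩
  have hd : ∀ x ∈ tot κ halfPlane, ∀ i, DifferentiableAt ℝ (fun b => ε b i) (bas x) := fun x hx i =>
    asm_diff isOpen_halfPlane (hε.smooth i) hx
  have hdc : ∀ x ∈ tot κ halfPlane, ∀ i, DifferentiableAt ℝ (fun b => conj (ε b i)) (bas x) := fun x hx i =>
    asm_diff isOpen_halfPlane (conj_contDiffOn (hε.smooth i)) hx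
  have e1 : ∀ i, (fun y : Unit ⊕ κ → ℂ => (Sum.elim (ε (bas y)) 0 : Unit ⊕ κ → ℂ) (Sum.inl i)) =
      fun y => (fun b => ε b i) (bas y) := fun i => rfl
  have e2 : ∀ i, (fun y : Unit ⊕ κ → ℂ => (Sum.elim (ε (bas y)) 0 : Unit ⊕ κ → ℂ) (Sum.inr i)) =
      fun _ => 0 := fun i => rfl
  have e3 : ∀ i, (fun y : Unit ⊕ κ → ℂ => conj ((Sum.elim (ε (bas y)) 0 : Unit ⊕ κ → ℂ) (Sum.inl i))) =
      fun y => (fun b => conj (ε b i)) (bas y) := fun i => rfl
  have e4 : ∀ i, (fun y : Unit ⊕ κ → ℂ => conj ((Sum.elim (ε (bas y)) 0 : Unit ⊕ κ → ℂ) (Sum.inr i))) =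
      fun _ => 0 := by
    intro i
    funext y
    simp
  refine ⟨fun i => ?_, fun F hF x hx i => ?_, fun x hx i j => ?_, fun x hx i j => ?_⟩
  · rcases i with i | i
    · exact contDiffOn_bas (hε.smooth i)
    · exact contDiffOn_const
  · have hb : bas x ∈ halfPlane := hx
    obtain ⟨γ, hγ, hF'⟩ := hS.down F hF
    have hJ := covers_jac hF' hx
    rw [Glue_jac γ hb] at hJ
    generalize (jac F x).toBlocks₂₁ = C at hJ
    generalize (jac F x).toBlocks₂₂ = A at hJ
    rw [hJ, hF' x hx, Fintype.sum_sum_type]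
    rcases i with i | i
    · have h1 := hε.inv (mob γ) ⟨γ, hγ, rfl⟩ (bas x) hb i
      simpa using h1
    · simp
  · rcases i with i | i <;> rcases j with j | j
    · rfl
    · rw [e1, e2, dz_const, dz_bas_inr (hd x hx i)]
    · rw [e1, e2, dz_const, dz_bas_inr (hd x hx j)]
    · rw [e2, e2, dz_const, dz_const]
  · have hb : bas x ∈ halfPlane := hx
    have h0 : glueK gm β' x i j - gm x i j = asmCorr gm β' x i j := by
      rw [Glue_corr]
      ring
    rw [h0]
    rcases i with i | i <;> rcases j with j | j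
    · rw [e1, e3, dz_bas_inl (hdc x hx j), dzbar_bas_inl (hd x hx i)]
      exact hε.eq _ hb i j
    · rw [e1, e4, dz_const, dzbar_bas_inr (hd x hx i)]
      simp [asmCorr]
    · rw [e2, e3, dzbar_const, dz_bas_inr (hdc x hx j)]
      simp [asmCorr]
    · rw [e2, e4, dz_const, dzbar_const]
      simp [asmCorr]

end YT
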