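import Pool.Agent.Lib.MP_464db4_gt.KT.Defs

/-!
# KT-Jacobi: the second derivative of `log det`
`h : (Unit → ℂ) → Matrix κ κ ℂ` smooth and positive definite on the open set `U`; `D = det h` is smooth, real and positive on `U`.
* Jacobi formula: for a derivation `∂` (`dz ()` or `dzbar ()`): `∂ (det h) = ∑ i j, (adjugate h) j i * ∂ (h i j) = det h * trace (h⁻¹ * ∂h)`.  (`det` is a polynomial in the entries: `fderiv` of `Matrix.det`:
  from `Matrix.det_apply'` and the product rule, `Finset.prod_erase` and Cramer `Matrix.adjugate_apply`, `det_updateRow_..`; or `MultilinearMap`/`ContinuousMultilinearMap.hasFDerivAt` of `Matrix.detRowAlternating`: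
  the derivative of `det` at `M` in the direction `N` is `∑ i, det (updateRow M i (N i)) = trace (adjugate M * N)`.)
* `log`: `ldm h = ofReal (log (D.re))`; `D` is real on `U`: `dzbar (ldm h) = dzbar D / D = trace (h⁻¹ * ∂̄h)`.
* inverse: `∂(h⁻¹) = - h⁻¹ (∂h) h⁻¹` (differentiate `h * h⁻¹ = 1` entrywise; the entries of `h⁻¹ = D⁻¹ • adjugate h` are smooth).
* so `dz (dzbar (ldm h)) = trace (∂(h⁻¹) ∂̄h + h⁻¹ ∂∂̄h) = trace (h⁻¹ * ∂∂̄h) - trace (h⁻¹ * ∂h * h⁻¹ * ∂̄h)`.
-/

namespace YT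

open Complex Matrix MeasureTheory
open scoped ContDiff ComplexConjugate ComplexOrder

variable {κ : Type} [Fintype κ] [DecidableEq κ] {U : Set (Unit → ℂ)} {h : (Unit → ℂ) → Matrix κ κ ℂ} {b : Unit → ℂ}

private theorem jac_det_smooth (hs : ∀ i j, ContDiffOn ℝ ∞ (fun b => h b i j) U) : ContDiffOn ℝ ∞ (fun b => (h b).det) U := by
  simp only [Matrix.det_apply']
  exact ContDiffOn.sum fun σ _ => contDiffOn_const.mul (contDiffOn_prod fun i _ => hs (σ i) i)

theorem ldm_smooth (hs : ∀ i j, ContDiffOn ℝ ∞ (fun b => h b i j) U) (hp : ∀ b ∈ U, (h b).PosDef) : ContDiffOn ℝ ∞ (ldm h) U := by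
  have h1 : ContDiffOn ℝ ∞ (fun b => (h b).det.re) U := Complex.reCLM.contDiff.comp_contDiffOn (jac_det_smooth hs)
  have h2 : ContDiffOn ℝ ∞ (fun b => Real.log (h b).det.re) U := h1.log fun b hb => (scalm_det (hp b hb)).1.ne'
  exact Complex.ofRealCLM.contDiff.comp_contDiffOn h2

theorem inv_smooth (hs : ∀ i j, ContDiffOn ℝ ∞ (fun b => h b i j) U) (hp : ∀ b ∈ U, (h b).PosDef) (i j : κ) :
    ContDiffOn ℝ ∞ (fun b => (h b)⁻¹ i j) U := by
  have h1 : ContDiffOn ℝ ∞ (fun b => ((h b).updateRow j (Pi.single i 1)).det) U := by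
    refine jac_det_smooth (h := fun b => (h b).updateRow j (Pi.single i 1)) fun k l => ?_
    by_cases hk : k = j
    · subst hk
      simp only [Matrix.updateRow_self]
      exact contDiffOn_const
    · simp only [Matrix.updateRow_ne hk]
      exact hs k l
  have h2 : ContDiffOn ℝ ∞ (fun b => ((h b).det)⁻¹) U := (jac_det_smooth hs).inv fun b hb h0 => by
    have h3 := (scalm_det (hp b hb)).1
    rw [h0] at h3
    exact lt_irrefl _ h3
  refine (h2.mul h1).congr fun b _ => ?_
  rw [Matrix.inv_def, Ring.inverse_eq_inv', Matrix.smul_apply, smul_eq_mul, Matrix.adjugate_apply]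

/-- A derivation of the functions which are differentiable at `b`. -/
private structure IsDer (b : Unit → ℂ) (D : ((Unit → ℂ) → ℂ) → ℂ) : Prop where
  const : ∀ c : ℂ, D (fun _ => c) = 0
  add : ∀ f g : (Unit → ℂ) → ℂ, DifferentiableAt ℝ f b → DifferentiableAt ℝ g b → D (fun y => f y + g y) = D f + D g
  mul : ∀ f g : (Unit → ℂ) → ℂ, DifferentiableAt ℝ f b → DifferentiableAt ℝ g b → D (fun y => f y * g y) = D f * g b + f b * D g
  exp : ∀ g : (Unit → ℂ) → ℂ, DifferentiableAt ℝ g b → D (fun y => Complex.exp (g y)) = Complex.exp (g b) * D g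
  congr : ∀ f g : (Unit → ℂ) → ℂ, f =ᶠ[nhds b] g → D f = D g

private theorem isDer_dz (b : Unit → ℂ) : IsDer b (fun f => dz () f b) where
  const c := dz_const () c
  add f g hf hg := dz_add () hf hg
  mul f g hf hg := dz_mul () hf hg
  exp g hg := by
    have h1 : fderiv ℝ (fun y => Complex.exp (g y)) b = Complex.exp (g b) • fderiv ℝ g b := hg.hasFDerivAt.cexp.fderiv
    show dz () (fun y => Complex.exp (g y)) b = Complex.exp (g b) * dz () g b
    unfold dz
    rw [h1]
    simp only [_root_.smul_apply, smul_eq_mul]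
    ring
  congr f g hfg := dz_congr () hfg

private theorem isDer_dzbar (b : Unit → ℂ) : IsDer b (fun f => dzbar () f b) where
  const c := dzbar_const () c
  add f g hf hg := dzbar_add () hf hg
  mul f g hf hg := dzbar_mul () hf hg
  exp g hg := by
    have h1 : fderiv ℝ (fun y => Complex.exp (g y)) b = Complex.exp (g b) • fderiv ℝ g b := hg.hasFDerivAt.cexp.fderiv
    show dzbar () (fun y => Complex.exp (g y)) b = Complex.exp (g b) * dzbar () g b
    unfold dzbar
    rw [h1]
    simp only [_root_.smul_apply, smul_eq_mul]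
    ring
  congr f g hfg := dzbar_congr () hfg

private theorem der_sum {D : ((Unit → ℂ) → ℂ) → ℂ} (hD : IsDer b D) {α : Type*} (s : Finset α) (f : α → (Unit → ℂ) → ℂ)
    (hf : ∀ a ∈ s, DifferentiableAt ℝ (f a) b) : D (fun y => ∑ a ∈ s, f a y) = ∑ a ∈ s, D (f a) := by
  classical
  induction s using Finset.induction_on with
  | empty => simpa using hD.const 0
  | insert a s ha ih =>
    have h1 : (fun y => ∑ a ∈ insert a s, f a y) = fun y => f a y + ∑ a ∈ s, f a y := by
      funext y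
      exact Finset.sum_insert ha
    rw [h1, hD.add _ _ (hf a (Finset.mem_insert_self _ _))
      (DifferentiableAt.fun_sum fun a' ha' => hf a' (Finset.mem_insert_of_mem ha')), Finset.sum_insert ha,
      ih fun a' ha' => hf a' (Finset.mem_insert_of_mem ha')]

private theorem jac_prod_diff {α : Type*} (s : Finset α) (f : α → (Unit → ℂ) → ℂ)
    (hf : ∀ a ∈ s, DifferentiableAt ℝ (f a) b) : DifferentiableAt ℝ (fun y => ∏ a ∈ s, f a y) b := by
  classical
  induction s using Finset.induction_on with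
  | empty => simpa using differentiableAt_const (1 : ℂ)
  | insert a s ha ih =>
    have h1 : (fun y => ∏ a ∈ insert a s, f a y) = fun y => f a y * ∏ a ∈ s, f a y := by
      funext y
      exact Finset.prod_insert ha
    rw [h1]
    exact (hf a (Finset.mem_insert_self _ _)).mul (ih fun a' ha' => hf a' (Finset.mem_insert_of_mem ha'))

private theorem der_prod {D : ((Unit → ℂ) → ℂ) → ℂ} (hD : IsDer b D) {α : Type*} [DecidableEq α] (s : Finset α) (f : α → (Unit → ℂ) → ℂ)
    (hf : ∀ a ∈ s, DifferentiableAt ℝ (f a) b) :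
    D (fun y => ∏ a ∈ s, f a y) = ∑ a ∈ s, (∏ a' ∈ s.erase a, f a' b) * D (f a) := by
  induction s using Finset.induction_on with
  | empty => simpa using hD.const 1
  | insert a s ha ih =>
    have h1 : (fun y => ∏ a ∈ insert a s, f a y) = fun y => f a y * ∏ a ∈ s, f a y := by
      funext y
      exact Finset.prod_insert ha
    have h2 : DifferentiableAt ℝ (fun y => ∏ a ∈ s, f a y) b :=
      jac_prod_diff s f fun a' ha' => hf a' (Finset.mem_insert_of_mem ha')
    rw [h1, hD.mul _ _ (hf a (Finset.mem_insert_self _ _)) h2, Finset.sum_insert ha,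
      ih fun a' ha' => hf a' (Finset.mem_insert_of_mem ha'), Finset.erase_insert ha, Finset.mul_sum]
    congr 1
    · ring
    · refine Finset.sum_congr rfl fun a' ha' => ?_
      have hne : a' ≠ a := fun h => ha (h ▸ ha')
      rw [Finset.erase_insert_of_ne (Ne.symm hne), Finset.prod_insert (fun h => ha (Finset.mem_of_mem_erase h))]
      ring

private theorem der_det {D : ((Unit → ℂ) → ℂ) → ℂ} (hD : IsDer b D) (hd : ∀ i j, DifferentiableAt ℝ (fun y => h y i j) b) :
    D (fun y => (h y).det) = ∑ i, ∑ k, (h b).adjugate i k * D (fun y => h y k i) := by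
  have h1 : (fun y => (h y).det) = fun y => ∑ σ : Equiv.Perm κ, ((Equiv.Perm.sign σ : ℤ) : ℂ) * ∏ i, h y (σ i) i := by
    funext y
    rw [Matrix.det_apply']
  have hp : ∀ σ : Equiv.Perm κ, DifferentiableAt ℝ (fun y => ∏ i, h y (σ i) i) b := fun σ =>
    jac_prod_diff Finset.univ (fun i y => h y (σ i) i) fun i _ => hd (σ i) i
  rw [h1, der_sum hD Finset.univ (fun (σ : Equiv.Perm κ) y => ((Equiv.Perm.sign σ : ℤ) : ℂ) * ∏ i, h y (σ i) i)
    fun σ _ => (differentiableAt_const _).mul (hp σ)]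
  have h2 : ∀ σ : Equiv.Perm κ, D (fun y => ((Equiv.Perm.sign σ : ℤ) : ℂ) * ∏ i, h y (σ i) i) =
      ∑ i, ((Equiv.Perm.sign σ : ℤ) : ℂ) * ((∏ j ∈ Finset.univ.erase i, h b (σ j) j) * D (fun y => h y (σ i) i)) := by
    intro σ
    rw [hD.mul _ _ (differentiableAt_const _) (hp σ), hD.const, zero_mul, zero_add,
      der_prod hD Finset.univ (fun i y => h y (σ i) i) fun i _ => hd (σ i) i, Finset.mul_sum]
  rw [Finset.sum_congr rfl fun σ _ => h2 σ, Finset.sum_comm]
  refine Finset.sum_congr rfl fun i _ => ?_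
  have h3 : ∑ k, (h b).adjugate i k * D (fun y => h y k i) = ((h b).updateCol i (fun k => D (fun y => h y k i))).det := by
    have h4 := congrFun (Matrix.cramer_eq_adjugate_mulVec (h b) (fun k => D (fun y => h y k i))) i
    rw [Matrix.cramer_apply] at h4
    rw [h4]
    rfl
  rw [h3, Matrix.det_apply']
  refine Finset.sum_congr rfl fun σ _ => ?_
  rw [← Finset.mul_prod_erase Finset.univ _ (Finset.mem_univ i)]
  congr 1
  rw [mul_comm]
  congr 1
  · rw [Matrix.updateCol_apply, if_pos rfl]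
  · refine Finset.prod_congr rfl fun j hj => ?_
    rw [Matrix.updateCol_apply, if_neg (Finset.ne_of_mem_erase hj)]

private theorem jac_diff (hU : IsOpen U) {f : (Unit → ℂ) → ℂ} (hf : ContDiffOn ℝ ∞ f U) (hb : b ∈ U) : DifferentiableAt ℝ f b :=
  (hf.contDiffAt (hU.mem_nhds hb)).differentiableAt (by simp)

private theorem der_ldm {D : ((Unit → ℂ) → ℂ) → ℂ} (hD : IsDer b D) (hU : IsOpen U) (hs : ∀ i j, ContDiffOn ℝ ∞ (fun b => h b i j) U)
    (hp : ∀ b ∈ U, (h b).PosDef) (hb : b ∈ U) : D (ldm h) = ∑ i, ∑ j, (h b)⁻¹ j i * D (fun y => h y i j) := by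
  have h1 : ∀ y ∈ U, Complex.exp (ldm h y) = (h y).det := by
    intro y hy
    obtain ⟨h2, h3⟩ := scalm_det (hp y hy)
    rw [ldm, ← Complex.ofReal_exp, Real.exp_log h2]
    apply Complex.ext
    · simp
    · simp [h3]
  have h4 : D (fun y => Complex.exp (ldm h y)) = D (fun y => (h y).det) :=
    hD.congr _ _ (Filter.eventuallyEq_of_mem (hU.mem_nhds hb) h1)
  rw [hD.exp _ (jac_diff hU (ldm_smooth hs hp) hb), h1 b hb, der_det hD fun i j => jac_diff hU (hs i j) hb] at h4
  have h5 : (h b).det ≠ 0 := by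
    intro h0
    have h6 := (scalm_det (hp b hb)).1
    rw [h0] at h6
    exact lt_irrefl _ h6
  have h7 : D (ldm h) = (h b).det⁻¹ * ∑ i, ∑ k, (h b).adjugate i k * D (fun y => h y k i) := by
    rw [← h4, inv_mul_cancel_left₀ h5]
  rw [h7, Finset.sum_comm, Finset.mul_sum]
  refine Finset.sum_congr rfl fun i _ => ?_
  rw [Finset.mul_sum]
  refine Finset.sum_congr rfl fun j _ => ?_
  rw [Matrix.inv_def, Ring.inverse_eq_inv', Matrix.smul_apply, smul_eq_mul, mul_assoc]

theorem dzbar_ldm (hU : IsOpen U) (hs : ∀ i j, ContDiffOn ℝ ∞ (fun b => h b i j) U) (hp : ∀ b ∈ U, (h b).PosDef) (hb : b ∈ U) :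
    dzbar () (ldm h) b = ∑ i, ∑ j, (h b)⁻¹ j i * dzbar () (fun y => h y i j) b :=
  der_ldm (isDer_dzbar b) hU hs hp hb

private theorem jac_unit (hp : ∀ b ∈ U, (h b).PosDef) (hb : b ∈ U) : IsUnit (h b).det := by
  rw [isUnit_iff_ne_zero]
  intro h0
  have h6 := (scalm_det (hp b hb)).1
  rw [h0] at h6
  exact lt_irrefl _ h6

theorem dz_inv (hU : IsOpen U) (hs : ∀ i j, ContDiffOn ℝ ∞ (fun b => h b i j) U) (hp : ∀ b ∈ U, (h b).PosDef) (hb : b ∈ U) (i j : κ) :
    dz () (fun y => (h y)⁻¹ i j) b = -∑ k, ∑ l, (h b)⁻¹ i k * dz () (fun y => h y k l) b * (h b)⁻¹ l j := by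
  obtain ⟨M, hM⟩ : ∃ M : Matrix κ κ ℂ, M = Matrix.of fun i j => dz () (fun y => h y i j) b := ⟨_, rfl⟩
  obtain ⟨N, hN⟩ : ∃ N : Matrix κ κ ℂ, N = Matrix.of fun i j => dz () (fun y => (h y)⁻¹ i j) b := ⟨_, rfl⟩
  have d1 : ∀ i j, DifferentiableAt ℝ (fun y => h y i j) b := fun i j => jac_diff hU (hs i j) hb
  have d2 : ∀ i j, DifferentiableAt ℝ (fun y => (h y)⁻¹ i j) b := fun i j => jac_diff hU (inv_smooth hs hp i j) hb
  have key : M * (h b)⁻¹ + h b * N = 0 := by
    ext i j
    have h1 : dz () (fun y => ∑ k, h y i k * (h y)⁻¹ k j) b = 0 := by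
      have h2 : ∀ y ∈ U, ∑ k, h y i k * (h y)⁻¹ k j = (1 : Matrix κ κ ℂ) i j := by
        intro y hy
        rw [← Matrix.mul_apply, Matrix.mul_nonsing_inv _ (jac_unit hp hy)]
      rw [dz_congr_on hU h2 hb, dz_const]
    rw [dz_sum Finset.univ (fun k y => h y i k * (h y)⁻¹ k j) () fun k _ => (d1 i k).mul (d2 k j)] at h1
    rw [Matrix.add_apply, Matrix.mul_apply, Matrix.mul_apply, ← Finset.sum_add_distrib, Matrix.zero_apply, ← h1]
    refine Finset.sum_congr rfl fun k _ => ?_
    rw [dz_mul () (d1 i k) (d2 k j), hM, hN]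
    simp only [Matrix.of_apply]
  have h3 : N = -((h b)⁻¹ * M * (h b)⁻¹) := by
    have h4 : h b * N = -(M * (h b)⁻¹) := by
      rw [eq_neg_iff_add_eq_zero, add_comm]
      exact key
    calc N = (h b)⁻¹ * (h b * N) := by rw [Matrix.nonsing_inv_mul_cancel_left _ _ (jac_unit hp hb)]
      _ = -((h b)⁻¹ * M * (h b)⁻¹) := by rw [h4, Matrix.mul_neg, Matrix.mul_assoc]
  have h5 : dz () (fun y => (h y)⁻¹ i j) b = N i j := by
    rw [hN, Matrix.of_apply]
  rw [h5, h3, Matrix.neg_apply, Matrix.mul_apply]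
  congr 1
  rw [Finset.sum_comm]
  refine Finset.sum_congr rfl fun l _ => ?_
  rw [Matrix.mul_apply, Finset.sum_mul]
  refine Finset.sum_congr rfl fun k _ => ?_
  rw [hM, Matrix.of_apply]

theorem dz_dzbar_ldm (hU : IsOpen U) (hs : ∀ i j, ContDiffOn ℝ ∞ (fun b => h b i j) U) (hp : ∀ b ∈ U, (h b).PosDef) (hb : b ∈ U) :
    dz () (fun y => dzbar () (ldm h) y) b = ∑ i, ∑ j, (h b)⁻¹ j i *
      (dz () (fun y => dzbar () (fun z => h z i j) y) b -
        ∑ k, ∑ l, dz () (fun y => h y i k) b * (h b)⁻¹ k l * dzbar () (fun y => h y l j) b) := by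
  have d2 : ∀ i j, DifferentiableAt ℝ (fun y => (h y)⁻¹ i j) b := fun i j => jac_diff hU (inv_smooth hs hp i j) hb
  have d3 : ∀ i j, DifferentiableAt ℝ (fun y => dzbar () (fun z => h z i j) y) b := fun i j =>
    jac_diff hU (dzbar_contDiffOn hU (hs i j) ()) hb
  rw [dz_congr_on hU (fun y hy => dzbar_ldm hU hs hp hy) hb]
  rw [dz_sum Finset.univ (fun i y => ∑ j, (h y)⁻¹ j i * dzbar () (fun z => h z i j) y) ()
    fun i _ => DifferentiableAt.fun_sum fun j _ => (d2 j i).mul (d3 i j)]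
  obtain ⟨P, hP⟩ : ∃ P : Matrix κ κ ℂ, P = (h b)⁻¹ := ⟨_, rfl⟩
  obtain ⟨A, hA⟩ : ∃ A : Matrix κ κ ℂ, A = Matrix.of fun i j => dz () (fun y => h y i j) b := ⟨_, rfl⟩
  obtain ⟨B, hB⟩ : ∃ B : Matrix κ κ ℂ, B = Matrix.of fun i j => dzbar () (fun y => h y i j) b := ⟨_, rfl⟩
  have e1 : ∀ i j, dz () (fun y => (h y)⁻¹ j i * dzbar () (fun z => h z i j) y) b =
      -((P * A * P) j i * B i j) + P j i * dz () (fun y => dzbar () (fun z => h z i j) y) b := by
    intro i j
    rw [dz_mul () (d2 j i) (d3 i j), dz_inv hU hs hp hb, ← hP]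
    have e2 : ∑ k, ∑ l, P j k * dz () (fun y => h y k l) b * P l i = (P * A * P) j i := by
      rw [Matrix.mul_apply, Finset.sum_comm]
      refine Finset.sum_congr rfl fun l _ => ?_
      rw [Matrix.mul_apply, Finset.sum_mul]
      refine Finset.sum_congr rfl fun k _ => ?_
      rw [hA, Matrix.of_apply]
    rw [e2, hB, Matrix.of_apply]
    ring
  have e3 : ∀ i, dz () (fun y => ∑ j, (h y)⁻¹ j i * dzbar () (fun z => h z i j) y) b =
      ∑ j, (-((P * A * P) j i * B i j) + P j i * dz () (fun y => dzbar () (fun z => h z i j) y) b) := by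
    intro i
    rw [dz_sum Finset.univ (fun j y => (h y)⁻¹ j i * dzbar () (fun z => h z i j) y) () fun j _ => (d2 j i).mul (d3 i j)]
    exact Finset.sum_congr rfl fun j _ => e1 i j
  rw [Finset.sum_congr rfl fun i _ => e3 i]
  have e4 : ∀ i j, ∑ k, ∑ l, dz () (fun y => h y i k) b * P k l * dzbar () (fun y => h y l j) b = (A * P * B) i j := by
    intro i j
    rw [Matrix.mul_apply, Finset.sum_comm]
    refine Finset.sum_congr rfl fun l _ => ?_
    rw [Matrix.mul_apply, Finset.sum_mul]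
    refine Finset.sum_congr rfl fun k _ => ?_
    rw [hA, hB, Matrix.of_apply, Matrix.of_apply]
  rw [← hP]
  simp only [e4, mul_sub, Finset.sum_add_distrib, Finset.sum_sub_distrib, Finset.sum_neg_distrib]
  have e5 : ∑ i, ∑ j, (P * A * P) j i * B i j = (P * A * P * B).trace := by
    rw [Finset.sum_comm, Matrix.trace]
    refine Finset.sum_congr rfl fun j _ => ?_
    rw [Matrix.diag_apply, Matrix.mul_apply]
  have e6 : ∑ i, ∑ j, P j i * (A * P * B) i j = (P * (A * P * B)).trace := by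
    rw [Finset.sum_comm, Matrix.trace]
    refine Finset.sum_congr rfl fun j _ => ?_
    rw [Matrix.diag_apply, Matrix.mul_apply]
  rw [e5, e6, Matrix.mul_assoc A P B, ← Matrix.mul_assoc P A, ← Matrix.mul_assoc (P * A) P B]
  ring

end YT
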