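import Pool.Agent.Lib.MP_464db4_gt.KT.JF
import Pool.Agent.Lib.MP_464db4_gt.KT.Jacobi

/-!
# KT-InvW: invariance of `y² ∂∂̄ log det h`
`F ∈ S` covering `γ` (`Covers.up`), `d b = (jac F (pt b 0)).toBlocks₂₂.det`, a holomorphic function on the half plane (`Covers.hol`, `jac_hol`: the entries of the Jacobian of a holomorphic map are holomorphic;
composition with the affine map `b ↦ pt b 0`; determinants are polynomials), nonzero by `covers_det_vert` (`det h ≠ 0`).
`det h(b) = d conj(d) det h(γ b)`, so `ldm (hv gm) b = log |d b|² + ldm (hv gm) (mob γ b)` (`Real.log_mul`; all three are positive reals).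
`dz dzbar log |d|² = 0`: `dzbar (log (d conj d)) = dzbar (d conj d)/(d conj d) = conj (dz d)/conj d = conj (dz d / d)` and `dz d / d` is holomorphic (`dz_conj`, `dzbar_hol`).
Chain rule: `dz dzbar (f ∘ mob γ) = mj γ * conj (mj γ) * (dz dzbar f) ∘ mob γ` for `f` smooth on the half plane (`dzbar_comp`, `dz_comp`, `jac_mob`, `mj_hol`, `dz_mul`).
-/

namespace YT

open Complex Matrix MeasureTheory
open scoped ContDiff ComplexConjugate ComplexOrder

variable {κ : Type} [Fintype κ] [DecidableEq κ] {Γ : Subgroup (Matrix.SpecialLinearGroup (Fin 2) ℝ)}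
  {S : Set ((Unit ⊕ κ → ℂ) → (Unit ⊕ κ → ℂ))} {gm : (Unit ⊕ κ → ℂ) → Matrix (Unit ⊕ κ) (Unit ⊕ κ) ℂ}
  {γ : Matrix.SpecialLinearGroup (Fin 2) ℝ} {b : Unit → ℂ}

private theorem InvW_log {N : (Unit → ℂ) → ℝ} {y : Unit → ℂ} (hN : DifferentiableAt ℝ N y) (h0 : N y ≠ 0) :
    dzbar () (fun z => ((Real.log (N z) : ℝ) : ℂ)) y = (((N y)⁻¹ : ℝ) : ℂ) * dzbar () (fun z => ((N z : ℝ) : ℂ)) y := by
  have h1 : HasFDerivAt (fun z => ((Real.log (N z) : ℝ) : ℂ)) (Complex.ofRealCLM.comp ((N y)⁻¹ • fderiv ℝ N y)) y :=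
    Complex.ofRealCLM.hasFDerivAt.comp y (hN.hasFDerivAt.log h0)
  have h2 : HasFDerivAt (fun z => ((N z : ℝ) : ℂ)) (Complex.ofRealCLM.comp (fderiv ℝ N y)) y :=
    Complex.ofRealCLM.hasFDerivAt.comp y hN.hasFDerivAt
  unfold dzbar
  rw [h1.fderiv, h2.fderiv]
  simp only [ContinuousLinearMap.comp_apply, Complex.ofRealCLM_apply, _root_.smul_apply, smul_eq_mul, Complex.ofReal_mul]
  ring

private theorem InvW_prod {E α : Type} [NormedAddCommGroup E] [NormedSpace ℂ E] {U : Set E} (s : Finset α)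
    (f : α → E → ℂ) (h : ∀ a ∈ s, DifferentiableOn ℂ (f a) U) : DifferentiableOn ℂ (fun y => ∏ a ∈ s, f a y) U := by
  classical
  induction s using Finset.induction_on with
  | empty => simp
  | insert a s ha ih =>
    have e : (fun y => ∏ b ∈ insert a s, f b y) = fun y => f a y * ∏ b ∈ s, f b y := by
      funext y
      rw [Finset.prod_insert ha]
    rw [e]
    exact (h a (Finset.mem_insert_self a s)).mul (ih (fun b hb => h b (Finset.mem_insert_of_mem hb)))

private theorem InvW_det {E ν : Type} [Fintype ν] [DecidableEq ν] [NormedAddCommGroup E] [NormedSpace ℂ E] {U : Set E}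
    {M : E → Matrix ν ν ℂ} (h : ∀ i j, DifferentiableOn ℂ (fun y => M y i j) U) : DifferentiableOn ℂ (fun y => (M y).det) U := by
  have e : (fun y => (M y).det) = fun y => ∑ σ : Equiv.Perm ν, ((Equiv.Perm.sign σ : ℤ) : ℂ) * ∏ i, M y (σ i) i := by
    funext y
    exact Matrix.det_apply' (M y)
  rw [e]
  exact DifferentiableOn.fun_sum fun σ _ => (InvW_prod Finset.univ (fun i y => M y (σ i) i) (fun i _ => h (σ i) i)).const_mul _

theorem dz_dzbar_log_hol {d : (Unit → ℂ) → ℂ} {U : Set (Unit → ℂ)} (hU : IsOpen U) (hd : DifferentiableOn ℂ d U) (h0 : ∀ b ∈ U, d b ≠ 0)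
    (hb : b ∈ U) : dz () (fun y => dzbar () (fun z => ((Real.log (‖d z‖ ^ 2) : ℝ) : ℂ)) y) b = 0 := by
  have hdat : ∀ y ∈ U, DifferentiableAt ℂ d y := fun y hy => (hd y hy).differentiableAt (hU.mem_nhds hy)
  have hreal : ∀ z, ((‖d z‖ ^ 2 : ℝ) : ℂ) = d z * conj (d z) := fun z => by
    rw [Complex.mul_conj, Complex.normSq_eq_norm_sq]
  have hcd : ∀ y ∈ U, DifferentiableAt ℝ (fun z => conj (d z)) y := fun y hy =>
    Complex.conjCLE.differentiableAt.comp y ((hdat y hy).restrictScalars ℝ)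
  have hbar : ∀ y ∈ U, dzbar () (fun z => ((Real.log (‖d z‖ ^ 2) : ℝ) : ℂ)) y = conj (dz () d y * (d y)⁻¹) := by
    intro y hy
    have hne : d y ≠ 0 := h0 y hy
    have hN : DifferentiableAt ℝ (fun z => ‖d z‖ ^ 2) y := by
      have h1 : DifferentiableAt ℝ (fun z => (d z * conj (d z)).re) y :=
        Complex.reCLM.differentiableAt.comp y (((hdat y hy).restrictScalars ℝ).mul (hcd y hy))
      have e : (fun z => ‖d z‖ ^ 2) = fun z => (d z * conj (d z)).re := by
        funext z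
        rw [← hreal z, Complex.ofReal_re]
      rw [e]
      exact h1
    have hpos : ‖d y‖ ^ 2 ≠ 0 := pow_ne_zero 2 (norm_ne_zero_iff.2 hne)
    rw [InvW_log hN hpos]
    have e2 : (fun z => ((‖d z‖ ^ 2 : ℝ) : ℂ)) = fun z => d z * conj (d z) := funext hreal
    rw [e2, dzbar_mul () ((hdat y hy).restrictScalars ℝ) (hcd y hy), dzbar_hol () (hdat y hy), dzbar_conj,
      Complex.ofReal_inv, hreal y, zero_mul, zero_add, map_mul, map_inv₀]
    have hc : conj (d y) ≠ 0 := (map_ne_zero _).2 hne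
    field_simp
  rw [dz_congr_on hU hbar hb (), dz_conj]
  have hF : DifferentiableOn ℂ (fun y (_ : Unit) => d y) U := differentiableOn_pi.2 fun _ => hd
  have hj := jac_hol hU hF () ()
  have hj' : DifferentiableOn ℂ (fun y => dz () d y) U := hj
  have hdz : DifferentiableAt ℂ (fun y => dz () d y) b := (hj' b hb).differentiableAt (hU.mem_nhds hb)
  have hinv : DifferentiableAt ℂ (fun y => (d y)⁻¹) b := (hdat b hb).inv (h0 b hb)
  have hmul : DifferentiableAt ℂ (fun y => dz () d y * (d y)⁻¹) b := hdz.mul hinv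
  rw [dzbar_hol () hmul, map_zero]

theorem dz_dzbar_comp_mob {f : (Unit → ℂ) → ℂ} (hf : ContDiffOn ℝ ∞ f halfPlane) (γ : Matrix.SpecialLinearGroup (Fin 2) ℝ) (hb : b ∈ halfPlane) :
    dz () (fun y => dzbar () (fun z => f (mob γ z)) y) b = mj γ b * conj (mj γ b) * dz () (fun y => dzbar () f y) (mob γ b) := by
  have hop := isOpen_halfPlane
  have hm : ∀ y ∈ halfPlane, DifferentiableAt ℂ (mob γ) y := fun y hy => ((mob_hol γ) y hy).differentiableAt (hop.mem_nhds hy)
  have hfat : ∀ y ∈ halfPlane, DifferentiableAt ℝ f y := fun y hy =>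
    (hf.contDiffAt (hop.mem_nhds hy)).differentiableAt (by simp)
  have hbar : ∀ y ∈ halfPlane, dzbar () (fun z => f (mob γ z)) y = dzbar () f (mob γ y) * conj (mj γ y) := by
    intro y hy
    rw [dzbar_comp (hm y hy) (hfat _ (mob_mem γ hy)) ()]
    simp only [Finset.univ_unique, Finset.sum_singleton]
    rw [jac_mob γ hy]
  rw [dz_congr_on hop hbar hb ()]
  have hg := dzbar_contDiffOn hop hf ()
  have hgat : DifferentiableAt ℝ (fun y => dzbar () f y) (mob γ b) :=
    (hg.contDiffAt (hop.mem_nhds (mob_mem γ hb))).differentiableAt (by simp)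
  have h1 : DifferentiableAt ℝ (fun y => dzbar () f (mob γ y)) b :=
    DifferentiableAt.comp (g := fun y => dzbar () f y) b hgat ((hm b hb).restrictScalars ℝ)
  have hmj : DifferentiableAt ℂ (mj γ) b := ((mj_hol γ) b hb).differentiableAt (hop.mem_nhds hb)
  have h2 : DifferentiableAt ℝ (fun y => conj (mj γ y)) b :=
    Complex.conjCLE.differentiableAt.comp b (hmj.restrictScalars ℝ)
  rw [dz_mul () h1 h2, dz_conj, dzbar_hol () hmj, map_zero, mul_zero, add_zero,
    dz_comp (f := fun y => dzbar () f y) (hm b hb) hgat ()]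
  simp only [Finset.univ_unique, Finset.sum_singleton]
  rw [jac_mob γ hb]
  show dz () (fun y => dzbar () f y) (mob γ b) * mj γ b * conj (mj γ b) = _
  ring

private theorem InvW_ldm (hg : IsKahler (tot κ halfPlane) S gm) : ContDiffOn ℝ ∞ (ldm (hv gm)) halfPlane :=
  ldm_smooth (hv_smooth hg) (fun _ hb => hv_posDef hg hb)

theorem ww_inv (hS : Covers Γ S) (hg : IsKahler (tot κ halfPlane) S gm) (hs : IsSemiFlat gm) (hγ : γ ∈ Γ) (hb : b ∈ halfPlane) :
    ww gm b = mj γ b * conj (mj γ b) * ww gm (mob γ b) := by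
  obtain ⟨F, hFS, hF⟩ := hS.up γ hγ
  have hop := isOpen_halfPlane
  -- the determinant
  obtain ⟨d, hd⟩ : ∃ d : (Unit → ℂ) → ℂ, d = fun b => (jac F (pt b 0)).toBlocks₂₂.det := ⟨_, rfl⟩
  have hdhol : DifferentiableOn ℂ d halfPlane := by
    rw [hd]
    refine InvW_det fun i j => ?_
    have h1 := jac_hol (isOpen_tot (κ := κ) hop) (hS.hol F hFS) (Sum.inr i) (Sum.inr j)
    have h2 : DifferentiableOn ℂ (fun b : Unit → ℂ => (pt b 0 : Unit ⊕ κ → ℂ)) halfPlane := by
      have e : (fun b : Unit → ℂ => (pt b 0 : Unit ⊕ κ → ℂ)) = fun b => geo_ptL Unit κ b :=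
        funext fun b => (geo_ptL_apply b).symm
      rw [e]
      exact (geo_ptL Unit κ).differentiable.differentiableOn
    exact DifferentiableOn.comp (g := fun y => jac F y (Sum.inr i) (Sum.inr j)) h1 h2 (fun b hb => hb)
  have hpos : ∀ y ∈ halfPlane, 0 < (hv gm y).det.re ∧ (hv gm y).det.im = 0 := by
    intro y hy
    have h := Complex.lt_def.1 (hv_posDef hg hy).det_pos
    exact ⟨h.1, h.2.symm⟩
  have hdet : ∀ y ∈ halfPlane, d y * conj (d y) * (hv gm (mob γ y)).det = (hv gm y).det := by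
    intro y hy
    have h := covers_det_vert hg hs hFS hF (x := pt y 0) (pt_mem_tot hy 0)
    rw [hd]
    exact h
  have hre : ∀ y ∈ halfPlane, ‖d y‖ ^ 2 * (hv gm (mob γ y)).det.re = (hv gm y).det.re := by
    intro y hy
    have h := congrArg Complex.re (hdet y hy)
    rwa [Complex.mul_conj, Complex.normSq_eq_norm_sq, Complex.re_ofReal_mul] at h
  have hdne : ∀ y ∈ halfPlane, d y ≠ 0 := by
    intro y hy h0
    have h1 := hre y hy
    have h2 := (hpos y hy).1
    rw [h0, norm_zero] at h1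
    norm_num at h1
    linarith
  have hlog : ∀ y ∈ halfPlane, ldm (hv gm) y =
      ((Real.log (‖d y‖ ^ 2) : ℝ) : ℂ) + ldm (hv gm) (mob γ y) := by
    intro y hy
    unfold ldm
    rw [← hre y hy, Real.log_mul (pow_ne_zero 2 (norm_ne_zero_iff.2 (hdne y hy)))
      (hpos _ (mob_mem γ hy)).1.ne', Complex.ofReal_add]
  have hL := InvW_ldm hg
  have hL2 : ContDiffOn ℝ ∞ (fun y => ldm (hv gm) (mob γ y)) halfPlane :=
    ContDiffOn.comp (g := ldm (hv gm)) (f := mob γ) hL (hol_contDiffOn hop (mob_hol γ)) (fun y hy => mob_mem γ hy)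
  have hL1 : ContDiffOn ℝ ∞ (fun y => ((Real.log (‖d y‖ ^ 2) : ℝ) : ℂ)) halfPlane := by
    refine (hL.sub hL2).congr (fun y hy => ?_)
    rw [hlog y hy]
    ring
  have hat : ∀ {f : (Unit → ℂ) → ℂ}, ContDiffOn ℝ ∞ f halfPlane → ∀ y ∈ halfPlane, DifferentiableAt ℝ f y :=
    fun hf y hy => (hf.contDiffAt (hop.mem_nhds hy)).differentiableAt (by simp)
  have hbar : ∀ y ∈ halfPlane, dzbar () (ldm (hv gm)) y =
      dzbar () (fun z => ((Real.log (‖d z‖ ^ 2) : ℝ) : ℂ)) y + dzbar () (fun z => ldm (hv gm) (mob γ z)) y := by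
    intro y hy
    rw [dzbar_congr_on hop hlog hy (), dzbar_add () (hat hL1 y hy) (hat hL2 y hy)]
  unfold ww
  rw [dz_congr_on hop hbar hb (), dz_add () (hat (dzbar_contDiffOn hop hL1 ()) b hb) (hat (dzbar_contDiffOn hop hL2 ()) b hb),
    dz_dzbar_log_hol hop hdhol hdne hb, zero_add, dz_dzbar_comp_mob hL γ hb]

theorem ww_smooth (hg : IsKahler (tot κ halfPlane) S gm) : ContDiffOn ℝ ∞ (ww gm) halfPlane :=
  dz_contDiffOn isOpen_halfPlane (dzbar_contDiffOn isOpen_halfPlane (InvW_ldm hg) ()) ()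

end YT
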