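import Pool.Agent.Lib.MP_464db4_gt.KT.Defs

/-!
# KT-JF: the Jacobian matrices of the maps of `S`, the Schur complement of a semi-flat form

* `covers_mem`: `bas (F x) = mob γ (bas x) ∈ halfPlane` (`mob_mem`).
* `covers_jac`: the component `F y (inl ())` is `mob γ (bas y) ()` on the open set `tot κ halfPlane`, so `dz (inr k)` of it is `0` (`dz_bas_inr`) and `dz (inl ())` is `mj γ (bas x)` (`dz_bas_inl`, `jac_mob`);
  so `jac F x = fromBlocks (of fun _ _ => mj γ (bas x)) 0 C A` with `C = toBlocks₂₁`, `A = toBlocks₂₂`.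
* `covers_vert`: the lower right block of `(jac F x)ᵀ * gm (F x) * mconj (jac F x) = gm x` is `Aᵀ * h(γ b) * mconj A = h b` (`asm_mconj`, `fromBlocks_transpose`, `fromBlocks_multiply`, `vert`).
* `covers_det`: determinants: `|det A|² det h(γ b) = det h(b)` and `‖mj γ b‖² |det A|² det (gm (F x)) = det (gm x)` (`det_mul`, `det_transpose`, `det_fromBlocks_zero₁₂`, `det (mconj M) = conj (det M)`:
  `RingHom.map_det`).
* `blk_eq`: with `Q = (gm x).toBlocks₁₂`, `h = hv gm (bas x)`: `gm x = fromBlocks P Q Qᴴ h` (`eq_fromBlocks`), `det = det h * det (P - Q h⁻¹ Qᴴ)` (`det_fromBlocks₂₂` or `det_glue` with `β = P - Q h⁻¹ Qᴴ`), the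
  same at `pt (bas x) 0`, so by `IsSemiFlat.det` the `1 × 1` matrix `P - Q h⁻¹ Qᴴ` is equal to `schur gm (bas x)` (`det_unique`), `det h ≠ 0`.
-/

namespace YT

open Complex Matrix MeasureTheory
open scoped ContDiff ComplexConjugate ComplexOrder

variable {κ : Type} [Fintype κ] [DecidableEq κ] {Γ : Subgroup (Matrix.SpecialLinearGroup (Fin 2) ℝ)}
  {S : Set ((Unit ⊕ κ → ℂ) → (Unit ⊕ κ → ℂ))} {gm : (Unit ⊕ κ → ℂ) → Matrix (Unit ⊕ κ) (Unit ⊕ κ) ℂ}
  {F : (Unit ⊕ κ → ℂ) → (Unit ⊕ κ → ℂ)} {γ : Matrix.SpecialLinearGroup (Fin 2) ℝ} {x : Unit ⊕ κ → ℂ} {b : Unit → ℂ}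

theorem covers_mem (hF : ∀ x ∈ tot κ halfPlane, bas (F x) = mob γ (bas x)) (hx : x ∈ tot κ halfPlane) : F x ∈ tot κ halfPlane := by
  show bas (F x) ∈ halfPlane
  rw [hF x hx]
  exact mob_mem γ hx

omit [Fintype κ] [DecidableEq κ] in
private theorem jf_mob_diff (γ : Matrix.SpecialLinearGroup (Fin 2) ℝ) {b : Unit → ℂ} (hb : b ∈ halfPlane) (i : Unit) :
    DifferentiableAt ℝ (fun b => mob γ b i) b := by
  have h1 : DifferentiableAt ℂ (mob γ) b := (mob_hol γ b hb).differentiableAt (isOpen_halfPlane.mem_nhds hb)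
  exact (differentiableAt_pi.1 h1 i).restrictScalars ℝ

theorem covers_jac (hF : ∀ x ∈ tot κ halfPlane, bas (F x) = mob γ (bas x)) (hx : x ∈ tot κ halfPlane) :
    jac F x = fromBlocks (Matrix.of fun _ _ => mj γ (bas x)) 0 (jac F x).toBlocks₂₁ (jac F x).toBlocks₂₂ := by
  have hb : bas x ∈ halfPlane := hx
  have hE : ∀ i : Unit, ∀ y ∈ tot κ halfPlane, F y (Sum.inl i) = mob γ (bas y) i := by
    intro i y hy
    exact congrFun (hF y hy) i
  ext k l
  rcases k with k | k <;> rcases l with l | l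
  · show dz (Sum.inl l) (fun y => F y (Sum.inl k)) x = mj γ (bas x)
    rw [dz_congr_on (isOpen_tot isOpen_halfPlane) (hE k) hx (Sum.inl l), dz_bas_inl (f := fun b => mob γ b k) (jf_mob_diff γ hb k) l]
    exact jac_mob γ hb k l
  · show dz (Sum.inr l) (fun y => F y (Sum.inl k)) x = 0
    rw [dz_congr_on (isOpen_tot isOpen_halfPlane) (hE k) hx (Sum.inr l), dz_bas_inr (f := fun b => mob γ b k) (jf_mob_diff γ hb k) l]
  · rfl
  · rfl

theorem hv_posDef (hg : IsKahler (tot κ halfPlane) S gm) (hb : b ∈ halfPlane) : (hv gm b).PosDef := by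
  exact vert_posDef (hg.pos _ (pt_mem_tot hb 0))

theorem hv_smooth (hg : IsKahler (tot κ halfPlane) S gm) (i j : κ) : ContDiffOn ℝ ∞ (fun b => hv gm b i j) halfPlane := by
  exact contDiffOn_pt (f := fun y => gm y (Sum.inr i) (Sum.inr j)) (hg.smooth _ _)

theorem covers_vert (hg : IsKahler (tot κ halfPlane) S gm) (hs : IsSemiFlat gm) (hFS : F ∈ S)
    (hF : ∀ x ∈ tot κ halfPlane, bas (F x) = mob γ (bas x)) (hx : x ∈ tot κ halfPlane) :
    ((jac F x).toBlocks₂₂)ᵀ * hv gm (mob γ (bas x)) * mconj (jac F x).toBlocks₂₂ = hv gm (bas x) := by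
  have hinv := hg.inv F hFS x hx
  have h1 : (gm (F x)).toBlocks₂₂ = hv gm (mob γ (bas x)) := by
    rw [hs.vert _ (covers_mem hF hx), hF x hx]
    rfl
  have h2 : (gm x).toBlocks₂₂ = hv gm (bas x) := hs.vert x hx
  rw [covers_jac hF hx, ← fromBlocks_toBlocks (gm (F x)), asm_mconj, fromBlocks_transpose, fromBlocks_multiply, fromBlocks_multiply] at hinv
  have h3 := congrArg Matrix.toBlocks₂₂ hinv
  rw [toBlocks_fromBlocks₂₂, h2] at h3
  rw [← h3, h1]
  simp only [transpose_zero, Matrix.zero_mul, Matrix.mul_zero, zero_add]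

private theorem jf_det_mconj {ν : Type} [Fintype ν] [DecidableEq ν] (A : Matrix ν ν ℂ) : (mconj A).det = conj A.det := by
  unfold mconj
  rw [RingHom.map_det]
  rfl

theorem covers_det_vert (hg : IsKahler (tot κ halfPlane) S gm) (hs : IsSemiFlat gm) (hFS : F ∈ S)
    (hF : ∀ x ∈ tot κ halfPlane, bas (F x) = mob γ (bas x)) (hx : x ∈ tot κ halfPlane) :
    (jac F x).toBlocks₂₂.det * conj (jac F x).toBlocks₂₂.det * (hv gm (mob γ (bas x))).det = (hv gm (bas x)).det := by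
  have h := congrArg Matrix.det (covers_vert hg hs hFS hF hx)
  rw [det_mul, det_mul, det_transpose, jf_det_mconj] at h
  rw [← h]
  ring

theorem covers_det (hg : IsKahler (tot κ halfPlane) S gm) (hs : IsSemiFlat gm) (hFS : F ∈ S)
    (hF : ∀ x ∈ tot κ halfPlane, bas (F x) = mob γ (bas x)) (hx : x ∈ tot κ halfPlane) :
    (mj γ (bas x) * conj (mj γ (bas x))) * ((jac F x).toBlocks₂₂.det * conj (jac F x).toBlocks₂₂.det) * (gm (F x)).det = (gm x).det := by
  have h := congrArg Matrix.det (hg.inv F hFS x hx)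
  rw [det_mul, det_mul, det_transpose, jf_det_mconj] at h
  have h1 : (jac F x).det = mj γ (bas x) * (jac F x).toBlocks₂₂.det := by
    conv_lhs => rw [covers_jac hF hx]
    rw [det_fromBlocks_zero₁₂, det_unique]
    rfl
  rw [← h, h1, map_mul]
  ring

theorem blk_eq (hg : IsKahler (tot κ halfPlane) S gm) (hs : IsSemiFlat gm) (hx : x ∈ tot κ halfPlane) :
    gm x = fromBlocks (schur gm (bas x) + (gm x).toBlocks₁₂ * (hv gm (bas x))⁻¹ * ((gm x).toBlocks₁₂)ᴴ)
      (gm x).toBlocks₁₂ ((gm x).toBlocks₁₂)ᴴ (hv gm (bas x)) := by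
  have hb : bas x ∈ halfPlane := hx
  have hy : (pt (bas x) 0 : Unit ⊕ κ → ℂ) ∈ tot κ halfPlane := pt_mem_tot hb 0
  have hh : (hv gm (bas x)).PosDef := hv_posDef hg hb
  have hv2 : (gm x).toBlocks₂₂ = hv gm (bas x) := hs.vert x hx
  have hd0 : (hv gm (bas x)).det ≠ 0 := ((isUnit_iff_isUnit_det _).1 hh.isUnit).ne_zero
  have e1 : gm x = fromBlocks (((gm x).toBlocks₁₁ - (gm x).toBlocks₁₂ * (hv gm (bas x))⁻¹ * ((gm x).toBlocks₁₂)ᴴ) +
      (gm x).toBlocks₁₂ * (hv gm (bas x))⁻¹ * ((gm x).toBlocks₁₂)ᴴ)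
      (gm x).toBlocks₁₂ ((gm x).toBlocks₁₂)ᴴ (hv gm (bas x)) := by
    rw [sub_add_cancel, ← hv2]
    exact eq_fromBlocks (hg.pos x hx).isHermitian
  have e2 : gm (pt (bas x) 0) = fromBlocks (schur gm (bas x) +
      (gm (pt (bas x) 0)).toBlocks₁₂ * (hv gm (bas x))⁻¹ * ((gm (pt (bas x) 0)).toBlocks₁₂)ᴴ)
      (gm (pt (bas x) 0)).toBlocks₁₂ ((gm (pt (bas x) 0)).toBlocks₁₂)ᴴ (hv gm (bas x)) := by
    have e3 : schur gm (bas x) + (gm (pt (bas x) 0)).toBlocks₁₂ * (hv gm (bas x))⁻¹ * ((gm (pt (bas x) 0)).toBlocks₁₂)ᴴ =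
        (gm (pt (bas x) 0)).toBlocks₁₁ := by
      unfold schur hv
      rw [sub_add_cancel]
    rw [e3]
    exact eq_fromBlocks (hg.pos _ hy).isHermitian
  have d1 : (gm x).det = (hv gm (bas x)).det *
      ((gm x).toBlocks₁₁ - (gm x).toBlocks₁₂ * (hv gm (bas x))⁻¹ * ((gm x).toBlocks₁₂)ᴴ).det := by
    conv_lhs => rw [e1]
    exact det_glue hh
  have d2 : (gm (pt (bas x) 0)).det = (hv gm (bas x)).det * (schur gm (bas x)).det := by
    conv_lhs => rw [e2]
    exact det_glue hh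
  have d3 : ((gm x).toBlocks₁₁ - (gm x).toBlocks₁₂ * (hv gm (bas x))⁻¹ * ((gm x).toBlocks₁₂)ᴴ).det = (schur gm (bas x)).det := by
    have h := hs.det x hx
    rw [d1, d2] at h
    exact mul_left_cancel₀ hd0 h
  have d4 : (gm x).toBlocks₁₁ - (gm x).toBlocks₁₂ * (hv gm (bas x))⁻¹ * ((gm x).toBlocks₁₂)ᴴ = schur gm (bas x) := by
    rw [det_unique, det_unique] at d3
    ext i j
    exact d3
  rw [d4] at e1
  exact e1

theorem det_semi (hg : IsKahler (tot κ halfPlane) S gm) (hs : IsSemiFlat gm) (hx : x ∈ tot κ halfPlane) :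
    (gm x).det = (hv gm (bas x)).det * schur gm (bas x) () () := by
  have hb : bas x ∈ halfPlane := hx
  have hh : (hv gm (bas x)).PosDef := hv_posDef hg hb
  conv_lhs => rw [blk_eq hg hs hx]
  rw [det_glue hh, det_unique (schur gm (bas x))]

end YT
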