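import Pool.Agent.Lib.MP_464db4_gt.KT.JF
import Pool.Agent.Lib.MP_464db4_gt.KT.Jacobi
import Pool.Agent.Lib.MP_464db4_gt.YT.ExB

/-!
# KT-PshA: closedness and the second derivative of the vertical block
On `tot κ halfPlane` write `h_kl = gm · (inr k) (inr l) = hv gm (bas ·) k l`, `Q_l = gm · (inl ()) (inr l)`, `P = gm · (inl ()) (inl ())`, `x = pt b 0`.  `closed` and `closed_bar` (YT-ExB:
`dzbar k (g i j) = dzbar j (g i k)`):
(1) `dz (inr k) Q_l = dz (inl ()) h_kl = (∂h_kl)(bas ·)`; (2) `S_kl := dzbar (inr k) Q_l = dzbar (inr l) Q_k`; (3) `dzbar (inr l) P = dzbar (inl ()) Q_l`.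
`dz (inr k) (dzbar (inr l) P) = dz (inr k) (dzbar (inl ()) Q_l) = dzbar (inl ()) (dz (inr k) Q_l) = dzbar (inl ()) ((∂h_kl) ∘ bas) = ∂̄∂h_kl(b) = ∂∂̄h_kl(b)` (`dz_dzbar_comm`).
On the other hand `P = β(bas ·) + ∑ a b, Q_a (h⁻¹)_ab (bas ·) conj Q_b` (`blk_eq`); functions of `bas ·` have no derivatives in the fibre directions (`dz_bas_inr`, `dzbar_bas_inr`), `dzbar (conj Q_b) = conj (dz Q_b)`
(`dzbar_conj`), so `dzbar (inr l) P = ∑ S_la h⁻¹_ab conj Q_b + Q_a h⁻¹_ab conj ((∂h_lb)(bas ·))`, and with `dz (inr k) S_la = dzbar (inr l) (dz (inr k) Q_a) = 0`, `dz (inr k) (conj Q_b) = conj S_kb`: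
`dz (inr k) (dzbar (inr l) P) = ∑ S_la h⁻¹_ab conj S_kb + ∑ (∂h_ka) h⁻¹_ab conj (∂h_lb)`, and `conj (∂h_lb) = ∂̄ (conj h_lb) = ∂̄ h_bl`.
(The entries of `h⁻¹` are smooth: for the proof it is enough that they are functions of `bas ·` which are differentiable; `inv_smooth` of KT-Jacobi can be used by importing it, or prove it here.)
-/

namespace YT

open Complex Matrix MeasureTheory
open scoped ContDiff ComplexConjugate ComplexOrder

variable {κ : Type} [Fintype κ] [DecidableEq κ] {S : Set ((Unit ⊕ κ → ℂ) → (Unit ⊕ κ → ℂ))}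
  {gm : (Unit ⊕ κ → ℂ) → Matrix (Unit ⊕ κ) (Unit ⊕ κ) ℂ} {b : Unit → ℂ}

private theorem PshA_open : IsOpen (tot κ halfPlane) := isOpen_tot isOpen_halfPlane

private theorem PshA_da {α : Type} [Fintype α] {U : Set (α → ℂ)} (hU : IsOpen U) {f : (α → ℂ) → ℂ} (hf : ContDiffOn ℝ ∞ f U)
    {x : α → ℂ} (hx : x ∈ U) : DifferentiableAt ℝ f x :=
  (hf.differentiableOn (by simp)).differentiableAt (hU.mem_nhds hx)

private theorem PshA_dz_mul3 {α : Type} [Fintype α] [DecidableEq α] {f g h : (α → ℂ) → ℂ} {x : α → ℂ} (hf : DifferentiableAt ℝ f x)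
    (hg : DifferentiableAt ℝ g x) (hh : DifferentiableAt ℝ h x) (i : α) :
    dz i (fun y => f y * g y * h y) x = dz i f x * g x * h x + f x * dz i g x * h x + f x * g x * dz i h x := by
  rw [dz_mul i (hf.fun_mul hg) hh, dz_mul i hf hg]
  ring

private theorem PshA_dzbar_mul3 {α : Type} [Fintype α] [DecidableEq α] {f g h : (α → ℂ) → ℂ} {x : α → ℂ} (hf : DifferentiableAt ℝ f x)
    (hg : DifferentiableAt ℝ g x) (hh : DifferentiableAt ℝ h x) (i : α) :
    dzbar i (fun y => f y * g y * h y) x = dzbar i f x * g x * h x + f x * dzbar i g x * h x + f x * g x * dzbar i h x := by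
  rw [dzbar_mul i (hf.fun_mul hg) hh, dzbar_mul i hf hg]
  ring

/-- the entries of `h⁻¹` -/
private noncomputable def PshA_H (gm : (Unit ⊕ κ → ℂ) → Matrix (Unit ⊕ κ) (Unit ⊕ κ) ℂ) (a c : κ) (b : Unit → ℂ) : ℂ := (hv gm b)⁻¹ a c

/-- `∂h_ka` -/
private noncomputable def PshA_D (gm : (Unit ⊕ κ → ℂ) → Matrix (Unit ⊕ κ) (Unit ⊕ κ) ℂ) (k a : κ) (b : Unit → ℂ) : ℂ :=
  dz () (fun c => hv gm c k a) b

private theorem PshA_H_smooth (hg : IsKahler (tot κ halfPlane) S gm) (a c : κ) : ContDiffOn ℝ ∞ (PshA_H gm a c) halfPlane :=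
  inv_smooth (hv_smooth hg) (fun _ hb => hv_posDef hg hb) a c

private theorem PshA_D_smooth (hg : IsKahler (tot κ halfPlane) S gm) (k a : κ) : ContDiffOn ℝ ∞ (PshA_D gm k a) halfPlane :=
  dz_contDiffOn isOpen_halfPlane (hv_smooth hg k a) ()

private theorem PshA_schur (hg : IsKahler (tot κ halfPlane) S gm) : ContDiffOn ℝ ∞ (fun b => schur gm b () ()) halfPlane := by
  have hp : ∀ i j, ContDiffOn ℝ ∞ (fun b : Unit → ℂ => gm (pt b 0) i j) halfPlane := fun i j =>
    contDiffOn_pt (f := fun y => gm y i j) (hg.smooth i j)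
  have key : ContDiffOn ℝ ∞ (fun b : Unit → ℂ => gm (pt b 0) (Sum.inl ()) (Sum.inl ()) -
      ∑ m, ∑ l, gm (pt b 0) (Sum.inl ()) (Sum.inr l) * PshA_H gm l m b * conj (gm (pt b 0) (Sum.inl ()) (Sum.inr m))) halfPlane := by
    refine (hp _ _).sub (ContDiffOn.sum fun m _ => ContDiffOn.sum fun l _ => ?_)
    exact ((hp _ _).mul (PshA_H_smooth hg l m)).mul (conj_contDiffOn (hp _ _))
  refine key.congr fun b _ => ?_
  unfold schur
  rw [Matrix.sub_apply, Matrix.mul_apply]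
  congr 1
  refine Finset.sum_congr rfl fun m _ => ?_
  rw [Matrix.mul_apply, Finset.sum_mul]
  rfl

private theorem PshA_Q1 (hg : IsKahler (tot κ halfPlane) S gm) (hs : IsSemiFlat gm) {y : Unit ⊕ κ → ℂ} (hy : y ∈ tot κ halfPlane) (k a : κ) :
    dz (Sum.inr k) (fun z => gm z (Sum.inl ()) (Sum.inr a)) y = PshA_D gm k a (bas y) := by
  rw [hg.closed y hy, PshA_D, ← dz_bas_inl (κ := κ) (x := y) (f := fun c => hv gm c k a) (PshA_da isOpen_halfPlane (hv_smooth hg k a) hy) ()]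
  refine dz_congr_on PshA_open (fun z hz => ?_) hy _
  exact congrFun (congrFun (hs.vert z hz) k) a

private theorem PshA_P (hg : IsKahler (tot κ halfPlane) S gm) (hs : IsSemiFlat gm) {y : Unit ⊕ κ → ℂ} (hy : y ∈ tot κ halfPlane) :
    gm y (Sum.inl ()) (Sum.inl ()) = schur gm (bas y) () () +
      ∑ m, ∑ l, gm y (Sum.inl ()) (Sum.inr l) * PshA_H gm l m (bas y) * conj (gm y (Sum.inl ()) (Sum.inr m)) := by
  have h := congrFun (congrFun (blk_eq hg hs hy) (Sum.inl ())) (Sum.inl ())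
  rw [fromBlocks_apply₁₁, Matrix.add_apply, Matrix.mul_apply] at h
  refine h.trans ?_
  congr 1
  refine Finset.sum_congr rfl fun m _ => ?_
  rw [Matrix.mul_apply, Finset.sum_mul]
  rfl

/-- the first derivative of `P` in the fibre directions -/
private theorem PshA_dP (hg : IsKahler (tot κ halfPlane) S gm) (hs : IsSemiFlat gm) {y : Unit ⊕ κ → ℂ} (hy : y ∈ tot κ halfPlane) (l : κ) :
    dzbar (Sum.inr l) (fun z => gm z (Sum.inl ()) (Sum.inl ())) y =
      ∑ m, ∑ p, (dzbar (Sum.inr l) (fun z => gm z (Sum.inl ()) (Sum.inr p)) y * PshA_H gm p m (bas y) * conj (gm y (Sum.inl ()) (Sum.inr m)) +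
        gm y (Sum.inl ()) (Sum.inr p) * PshA_H gm p m (bas y) * conj (PshA_D gm l m (bas y))) := by
  have hQ : ∀ p, DifferentiableAt ℝ (fun z => gm z (Sum.inl ()) (Sum.inr p)) y := fun p => PshA_da PshA_open (hg.smooth _ _) hy
  have hQc : ∀ p, DifferentiableAt ℝ (fun z => conj (gm z (Sum.inl ()) (Sum.inr p))) y := fun p =>
    PshA_da PshA_open (conj_contDiffOn (hg.smooth _ _)) hy
  have hH : ∀ p m, DifferentiableAt ℝ (fun z : Unit ⊕ κ → ℂ => PshA_H gm p m (bas z)) y := fun p m =>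
    PshA_da PshA_open (contDiffOn_bas (PshA_H_smooth hg p m)) hy
  have hH' : ∀ p m, DifferentiableAt ℝ (PshA_H gm p m) (bas y) := fun p m => PshA_da isOpen_halfPlane (PshA_H_smooth hg p m) hy
  have hT : ∀ p m, DifferentiableAt ℝ (fun z => gm z (Sum.inl ()) (Sum.inr p) * PshA_H gm p m (bas z) * conj (gm z (Sum.inl ()) (Sum.inr m))) y :=
    fun p m => ((hQ p).fun_mul (hH p m)).fun_mul (hQc m)
  rw [dzbar_congr_on PshA_open (fun z hz => PshA_P hg hs hz) hy,
    dzbar_add _ (PshA_da PshA_open (contDiffOn_bas (PshA_schur hg)) hy)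
      (DifferentiableAt.fun_sum fun m _ => DifferentiableAt.fun_sum fun p _ => hT p m),
    dzbar_bas_inr (f := fun b => schur gm b () ()) (PshA_da isOpen_halfPlane (PshA_schur hg) hy), zero_add,
    dzbar_sum _ _ _ fun m _ => DifferentiableAt.fun_sum fun p _ => hT p m]
  refine Finset.sum_congr rfl fun m _ => ?_
  rw [dzbar_sum _ _ _ fun p _ => hT p m]
  refine Finset.sum_congr rfl fun p _ => ?_
  rw [PshA_dzbar_mul3 (hQ p) (hH p m) (hQc m), dzbar_bas_inr (hH' p m), dzbar_conj, PshA_Q1 hg hs hy]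
  ring

theorem ddbar_vert (hg : IsKahler (tot κ halfPlane) S gm) (hs : IsSemiFlat gm) (hb : b ∈ halfPlane) :
    ∃ s : Matrix κ κ ℂ, ∀ k l, dz () (fun y => dzbar () (fun z => hv gm z k l) y) b -
      ∑ p, ∑ q, dz () (fun y => hv gm y k p) b * (hv gm b)⁻¹ p q * dzbar () (fun y => hv gm y q l) b =
        ∑ p, ∑ q, s l p * (hv gm b)⁻¹ p q * conj (s k q) := by
  obtain ⟨x, hxd⟩ : ∃ x : Unit ⊕ κ → ℂ, x = pt b 0 := ⟨_, rfl⟩
  have hbx : bas x = b := by rw [hxd, bas_pt]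
  have hx : x ∈ tot κ halfPlane := by
    change bas x ∈ halfPlane
    rw [hbx]
    exact hb
  refine ⟨Matrix.of fun l p => dzbar (Sum.inr l) (fun z => gm z (Sum.inl ()) (Sum.inr p)) x, fun k l => ?_⟩
  have hQs : ∀ p, ContDiffOn ℝ ∞ (fun z => gm z (Sum.inl ()) (Sum.inr p)) (tot κ halfPlane) := fun p => hg.smooth _ _
  have hSs : ∀ p, ContDiffOn ℝ ∞ (fun y => dzbar (Sum.inr l) (fun z => gm z (Sum.inl ()) (Sum.inr p)) y) (tot κ halfPlane) := fun p =>
    dzbar_contDiffOn PshA_open (hQs p) _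
  have hQ : ∀ p, DifferentiableAt ℝ (fun z => gm z (Sum.inl ()) (Sum.inr p)) x := fun p => PshA_da PshA_open (hQs p) hx
  have hQc : ∀ p, DifferentiableAt ℝ (fun z => conj (gm z (Sum.inl ()) (Sum.inr p))) x := fun p =>
    PshA_da PshA_open (conj_contDiffOn (hQs p)) hx
  have hSd : ∀ p, DifferentiableAt ℝ (fun y => dzbar (Sum.inr l) (fun z => gm z (Sum.inl ()) (Sum.inr p)) y) x := fun p =>
    PshA_da PshA_open (hSs p) hx
  have hH : ∀ p m, DifferentiableAt ℝ (fun z : Unit ⊕ κ → ℂ => PshA_H gm p m (bas z)) x := fun p m =>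
    PshA_da PshA_open (contDiffOn_bas (PshA_H_smooth hg p m)) hx
  have hH' : ∀ p m, DifferentiableAt ℝ (PshA_H gm p m) (bas x) := fun p m => PshA_da isOpen_halfPlane (PshA_H_smooth hg p m) hx
  have hD : ∀ m, DifferentiableAt ℝ (fun z : Unit ⊕ κ → ℂ => PshA_D gm l m (bas z)) x := fun m =>
    PshA_da PshA_open (contDiffOn_bas (PshA_D_smooth hg l m)) hx
  have hDc : ∀ m, DifferentiableAt ℝ (fun z : Unit ⊕ κ → ℂ => conj (PshA_D gm l m (bas z))) x := fun m =>
    PshA_da PshA_open (conj_contDiffOn (contDiffOn_bas (PshA_D_smooth hg l m))) hx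
  have hD' : ∀ k m, DifferentiableAt ℝ (PshA_D gm k m) (bas x) := fun k m => PshA_da isOpen_halfPlane (PshA_D_smooth hg k m) hx
  -- the left side
  have hA : dz (Sum.inr k) (fun y => dzbar (Sum.inr l) (fun z => gm z (Sum.inl ()) (Sum.inl ())) y) x =
      dz () (fun y => dzbar () (fun z => hv gm z k l) y) b := by
    rw [dz_congr_on PshA_open (fun y hy => closed_bar PshA_open hg hy (Sum.inl ()) (Sum.inl ()) (Sum.inr l)) hx,
      dz_dzbar_comm PshA_open (hQs l) hx, dzbar_congr_on PshA_open (fun y hy => PshA_Q1 hg hs hy k l) hx,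
      dzbar_bas_inl (hD' k l), hbx, dz_dzbar_comm isOpen_halfPlane (hv_smooth hg k l) hb]
    rfl
  -- the right side
  have hB : dz (Sum.inr k) (fun y => dzbar (Sum.inr l) (fun z => gm z (Sum.inl ()) (Sum.inl ())) y) x =
      ∑ m, ∑ p, (dzbar (Sum.inr l) (fun z => gm z (Sum.inl ()) (Sum.inr p)) x * PshA_H gm p m b *
          conj (dzbar (Sum.inr k) (fun z => gm z (Sum.inl ()) (Sum.inr m)) x) +
        PshA_D gm k p b * PshA_H gm p m b * conj (PshA_D gm l m b)) := by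
    rw [dz_congr_on PshA_open (fun y hy => PshA_dP hg hs hy l) hx]
    have hT1 : ∀ p m, DifferentiableAt ℝ (fun y => dzbar (Sum.inr l) (fun z => gm z (Sum.inl ()) (Sum.inr p)) y * PshA_H gm p m (bas y) *
        conj (gm y (Sum.inl ()) (Sum.inr m))) x := fun p m => ((hSd p).fun_mul (hH p m)).fun_mul (hQc m)
    have hT2 : ∀ p m, DifferentiableAt ℝ (fun y => gm y (Sum.inl ()) (Sum.inr p) * PshA_H gm p m (bas y) * conj (PshA_D gm l m (bas y))) x :=
      fun p m => ((hQ p).fun_mul (hH p m)).fun_mul (hDc m)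
    rw [dz_sum _ _ _ fun m _ => DifferentiableAt.fun_sum fun p _ => (hT1 p m).fun_add (hT2 p m)]
    refine Finset.sum_congr rfl fun m _ => ?_
    rw [dz_sum _ _ _ fun p _ => (hT1 p m).fun_add (hT2 p m)]
    refine Finset.sum_congr rfl fun p _ => ?_
    rw [dz_add _ (hT1 p m) (hT2 p m), PshA_dz_mul3 (hSd p) (hH p m) (hQc m), PshA_dz_mul3 (hQ p) (hH p m) (hDc m),
      dz_bas_inr (hH' p m), dz_dzbar_comm PshA_open (hQs p) hx, dzbar_congr_on PshA_open (fun y hy => PshA_Q1 hg hs hy k p) hx,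
      dzbar_bas_inr (hD' k p), dz_conj, dz_conj, dzbar_bas_inr (hD' l m), PshA_Q1 hg hs hx, hbx, map_zero]
    ring
  have hC : ∀ m, conj (PshA_D gm l m b) = dzbar () (fun y => hv gm y m l) b := fun m => by
    unfold PshA_D
    rw [← dzbar_conj]
    refine dzbar_congr_on isOpen_halfPlane (fun c hc => ?_) hb ()
    have h := (hv_posDef hg hc).isHermitian.apply m l
    exact h
  rw [← hA, hB, sub_eq_iff_eq_add]
  simp only [Finset.sum_add_distrib, hC, of_apply]
  congr 1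
  · rw [Finset.sum_comm]
    rfl
  · rw [Finset.sum_comm]
    rfl

end YT
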