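import Pool.Agent.Lib.MP_464db4_gt.KT.PshA
import Pool.Agent.Lib.MP_464db4_gt.KT.Jacobi

/-!
# KT-PshB: `∂∂̄ log det h ≥ 0`
* `trace_nonneg`: `h` positive definite, `s` a matrix: `∑ i j, h⁻¹_ji ∑ p q, s_jp h⁻¹_pq conj (s_iq) = trace (h⁻¹ * (s * h⁻¹ * sᴴ)ᵀ)`, the trace of the product of two positive semidefinite matrices, is a real number `≥ 0`
  (e.g. with `h⁻¹ = Cᴴ * C` it is `trace` of `C W Cᴴ`; or: `∑ i j p q, h⁻¹_ji h⁻¹_pq s_jp conj (s_iq)` with `h⁻¹ = Cᴴ C`: `h⁻¹_ji = ∑ r, conj (C_rj) C_ri`, `h⁻¹_pq = ∑ t, conj (C_tp) C_tq`, the sum is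
  `∑ r t, (∑ j p, conj (C_rj) conj(C_tp) s_jp) * conj (∑ i q, conj (C_ri) conj (C_tq) s_iq) ≥ 0`).
* `ww_nonneg`: `dz_dzbar_ldm` (`U = halfPlane`, `h = hv gm`, `hv_smooth`, `hv_posDef`) and `ddbar_vert`.
-/

namespace YT

open Complex Matrix MeasureTheory
open scoped ContDiff ComplexConjugate ComplexOrder

variable {κ : Type} [Fintype κ] [DecidableEq κ] {S : Set ((Unit ⊕ κ → ℂ) → (Unit ⊕ κ → ℂ))}
  {gm : (Unit ⊕ κ → ℂ) → Matrix (Unit ⊕ κ) (Unit ⊕ κ) ℂ} {b : Unit → ℂ}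

open scoped MatrixOrder in
private theorem pshB_sqrt {N : Matrix κ κ ℂ} (h : N.PosSemidef) : ∃ C : Matrix κ κ ℂ, N = Cᴴ * C :=
  CStarAlgebra.nonneg_iff_eq_star_mul_self.mp h.nonneg

theorem trace_nonneg {M : Matrix κ κ ℂ} (hM : M.PosDef) (s : Matrix κ κ ℂ) :
    0 ≤ ∑ i, ∑ j, M⁻¹ j i * ∑ p, ∑ q, s j p * M⁻¹ p q * conj (s i q) := by
  obtain ⟨C, hC⟩ := pshB_sqrt hM.inv.posSemidef
  have h1 : ∑ i, ∑ j, M⁻¹ j i * ∑ p, ∑ q, s j p * M⁻¹ p q * conj (s i q) = (M⁻¹ᵀ * (s * M⁻¹ * sᴴ)).trace := by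
    unfold Matrix.trace
    refine Finset.sum_congr rfl fun i _ => ?_
    rw [Matrix.diag_apply, Matrix.mul_apply]
    refine Finset.sum_congr rfl fun j _ => ?_
    rw [Matrix.transpose_apply, Matrix.mul_apply, Finset.sum_comm]
    congr 1
    refine Finset.sum_congr rfl fun q _ => ?_
    rw [Matrix.mul_apply, Finset.sum_mul]
    refine Finset.sum_congr rfl fun p _ => ?_
    rw [Matrix.conjTranspose_apply]
    rfl
  have h2 : (M⁻¹ᵀ * (s * M⁻¹ * sᴴ)).trace = ((Cᴴᵀ * s * Cᴴ) * (Cᴴᵀ * s * Cᴴ)ᴴ).trace := by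
    rw [hC, Matrix.transpose_mul]
    have h3 : (Cᴴᵀ * s * Cᴴ)ᴴ = C * sᴴ * Cᵀ := by
      rw [Matrix.conjTranspose_mul, Matrix.conjTranspose_mul, Matrix.conjTranspose_conjTranspose, Matrix.mul_assoc]
      congr 2
      ext i j
      rw [Matrix.conjTranspose_apply, Matrix.transpose_apply, Matrix.conjTranspose_apply, Matrix.transpose_apply, star_star]
    rw [h3, show Cᵀ * Cᴴᵀ * (s * (Cᴴ * C) * sᴴ) = Cᵀ * (Cᴴᵀ * s * Cᴴ * (C * sᴴ)) by simp only [Matrix.mul_assoc],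
      Matrix.trace_mul_comm]
    simp only [Matrix.mul_assoc]
  rw [h1, h2]
  exact (Matrix.posSemidef_self_mul_conjTranspose _).trace_nonneg

theorem ww_nonneg (hg : IsKahler (tot κ halfPlane) S gm) (hs : IsSemiFlat gm) (hb : b ∈ halfPlane) :
    0 ≤ (ww gm b).re ∧ (ww gm b).im = 0 := by
  obtain ⟨s, hs'⟩ := ddbar_vert hg hs hb
  have h1 : ww gm b = ∑ i, ∑ j, (hv gm b)⁻¹ j i * ∑ p, ∑ q, s j p * (hv gm b)⁻¹ p q * conj (s i q) := by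
    refine (dz_dzbar_ldm (h := hv gm) isOpen_halfPlane (hv_smooth hg) (fun b hb => hv_posDef hg hb) hb).trans ?_
    refine Finset.sum_congr rfl fun i _ => Finset.sum_congr rfl fun j _ => ?_
    rw [← hs' i j]
  have h2 : 0 ≤ ww gm b := h1 ▸ trace_nonneg (hv_posDef hg hb) s
  rw [Complex.nonneg_iff] at h2
  exact ⟨h2.1, h2.2.symm⟩

end YT
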