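import Pool.Agent.Lib.MP_464db4_gt.KT.Glue
import Pool.Agent.Lib.MP_464db4_gt.KT.Jacobi

/-!
# KT-Scal: the scalar curvature of the glued form
On `tot κ halfPlane`: `(glueK gm β' x).det = (hv gm (bas x)).det * (β' (bas x)).det` (`glueK_eq`, `det_glue`), so `logdet (glueK gm β') x = ldm (hv gm) (bas x) + logdet β' (bas x)`, a smooth function of `bas x`.
All its derivatives in fibre directions vanish; the `(inl, inl)` entry of the inverse is `(β' (bas x))⁻¹ () ()` (`inv_glue`).  The proof is that of `scal_glue` in YT-ScalM, with the constant `c` replaced by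
the function `ldm (hv gm)`.
-/

namespace YT

open Complex Matrix MeasureTheory
open scoped ContDiff ComplexConjugate ComplexOrder

variable {κ : Type} [Fintype κ] [DecidableEq κ] {Γ : Subgroup (Matrix.SpecialLinearGroup (Fin 2) ℝ)}
  {S : Set ((Unit ⊕ κ → ℂ) → (Unit ⊕ κ → ℂ))} {gm : (Unit ⊕ κ → ℂ) → Matrix (Unit ⊕ κ) (Unit ⊕ κ) ℂ}
  {β' : (Unit → ℂ) → Matrix Unit Unit ℂ} {x : Unit ⊕ κ → ℂ}

private theorem scalK_pos (hg : IsKahler (tot κ halfPlane) S gm) {b : Unit → ℂ} (hb : b ∈ halfPlane) : (hv gm b).PosDef :=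
  vert_posDef (hg.pos _ (pt_mem_tot hb 0))

theorem logdet_glueK (hg : IsKahler (tot κ halfPlane) S gm) (hs : IsSemiFlat gm) (hβ : IsKahler halfPlane (mobs Γ) β')
    (hx : x ∈ tot κ halfPlane) : logdet (glueK gm β') x = ldm (hv gm) (bas x) + logdet β' (bas x) := by
  have hb : bas x ∈ halfPlane := hx
  have hh : (hv gm (bas x)).PosDef := scalK_pos hg hb
  have e2 : (glueK gm β' x).det = (hv gm (bas x)).det * (β' (bas x)).det := by
    rw [glueK_eq hg hs hx]
    exact det_glue hh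
  obtain ⟨p1, p2⟩ := scalm_det hh
  obtain ⟨q1, q2⟩ := scalm_det (hβ.pos _ hb)
  unfold logdet ldm
  rw [e2, Complex.mul_re, p2, q2, mul_zero, sub_zero, Real.log_mul p1.ne' q1.ne', Complex.ofReal_add]

theorem scal_glueK (hg : IsKahler (tot κ halfPlane) S gm) (hs : IsSemiFlat gm) (hβ : IsKahler halfPlane (mobs Γ) β')
    (hx : x ∈ tot κ halfPlane) :
    scal (glueK gm β') x = -((β' (bas x))⁻¹ () () * (ww gm (bas x) + dz () (fun y => dzbar () (logdet β') y) (bas x))) := by
  have hb : bas x ∈ halfPlane := hx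
  have hD : IsOpen (halfPlane : Set (Unit → ℂ)) := isOpen_halfPlane
  have hU : IsOpen (tot κ halfPlane) := isOpen_tot hD
  have hlog : ∀ y ∈ tot κ halfPlane, logdet (glueK gm β') y = ldm (hv gm) (bas y) + logdet β' (bas y) :=
    fun y hy => logdet_glueK hg hs hβ hy
  have hs1 : ContDiffOn ℝ ∞ (logdet β') halfPlane := logdet_smooth hβ
  have hs0 : ContDiffOn ℝ ∞ (ldm (hv gm)) halfPlane :=
    ldm_smooth (fun i j => contDiffOn_pt (f := fun y => gm y (Sum.inr i) (Sum.inr j)) (hg.smooth _ _)) fun b hb => scalK_pos hg hb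
  have hd : ∀ b ∈ halfPlane, DifferentiableAt ℝ (logdet β') b := fun b hb => asm_diff hD hs1 hb
  have hd0 : ∀ b ∈ halfPlane, DifferentiableAt ℝ (ldm (hv gm)) b := fun b hb => asm_diff hD hs0 hb
  have hdc : ∀ b ∈ halfPlane, DifferentiableAt ℝ (fun b => ldm (hv gm) b + logdet β' b) b := fun b hb => (hd0 b hb).add (hd b hb)
  have hd2 : DifferentiableAt ℝ (fun b => dzbar () (logdet β') b) (bas x) := asm_diff hD (dzbar_contDiffOn hD hs1 ()) hb
  have hd3 : DifferentiableAt ℝ (fun b => dzbar () (ldm (hv gm)) b) (bas x) := asm_diff hD (dzbar_contDiffOn hD hs0 ()) hb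
  have hd4 : DifferentiableAt ℝ (fun b => dzbar () (ldm (hv gm)) b + dzbar () (logdet β') b) (bas x) := hd3.add hd2
  have b1 : ∀ y ∈ tot κ halfPlane, dzbar (Sum.inl ()) (logdet (glueK gm β')) y =
      (fun b => dzbar () (ldm (hv gm)) b + dzbar () (logdet β') b) (bas y) := by
    intro y hy
    rw [dzbar_congr_on hU (h := fun y => (fun b => ldm (hv gm) b + logdet β' b) (bas y)) hlog hy, dzbar_bas_inl (hdc _ hy),
      dzbar_add () (hd0 _ hy) (hd _ hy)]
  have b2 : ∀ k : κ, ∀ y ∈ tot κ halfPlane, dzbar (Sum.inr k) (logdet (glueK gm β')) y = 0 := by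
    intro k y hy
    rw [dzbar_congr_on hU (h := fun y => (fun b => ldm (hv gm) b + logdet β' b) (bas y)) hlog hy, dzbar_bas_inr (hdc _ hy)]
  have c1 : dz (Sum.inl ()) (fun y => dzbar (Sum.inl ()) (logdet (glueK gm β')) y) x =
      ww gm (bas x) + dz () (fun y => dzbar () (logdet β') y) (bas x) := by
    rw [dz_congr_on hU b1 hx, dz_bas_inl hd4, dz_add () hd3 hd2]
    rfl
  have c2 : ∀ (k : κ), dz (Sum.inr k) (fun y => dzbar (Sum.inl ()) (logdet (glueK gm β')) y) x = 0 := by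
    intro k
    rw [dz_congr_on hU b1 hx, dz_bas_inr hd4]
  have c3 : ∀ (i : Unit ⊕ κ) (k : κ), dz i (fun y => dzbar (Sum.inr k) (logdet (glueK gm β')) y) x = 0 := by
    intro i k
    rw [dz_congr_on hU (h := fun _ => 0) (b2 k) hx, dz_const]
  have e1 : (glueK gm β' x)⁻¹ (Sum.inl ()) (Sum.inl ()) = (β' (bas x))⁻¹ () () := by
    rw [glueK_eq hg hs hx]
    have := inv_glue (Q := (gm x).toBlocks₁₂) (hβ.pos _ hb) (scalK_pos hg hb)
    exact congrFun (congrFun this ()) ()
  unfold scal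
  simp only [Fintype.sum_sum_type, c2, c3, mul_zero, Finset.sum_const_zero, add_zero]
  simp only [Finset.univ_unique, Finset.sum_singleton]
  change -((glueK gm β' x)⁻¹ (Sum.inl ()) (Sum.inl ()) * dz (Sum.inl ()) (fun y => dzbar (Sum.inl ()) (logdet (glueK gm β')) y) x) = _
  rw [c1, e1]

end YT
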