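import Pool.Agent.Lib.MP_464db4_gt.KT.PshB
import Pool.Agent.Lib.MP_464db4_gt.KT.InvW
import Pool.Agent.Lib.MP_464db4_gt.KT.Scal
import Pool.Agent.Lib.MP_464db4_gt.KT.Bas
import Pool.Agent.Lib.MP_464db4_gt.KW.KWT

/-!
# KT-Res: every semi-flat class over a compact hyperbolic curve contains a metric of constant scalar curvature
`f x = 2 + 4 y² (ww gm x).re`: smooth (`ww_smooth`), `≥ 2` (`ww_nonneg`), invariant: `ww gm x = |mj|² ww gm (γ x)` (`ww_inv`), `im (γ x) = y |mj|` (`im_mob`).  `kazdan_warner` gives `u`, `exists_scale` (for `schur gm`,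
`schurK_isKahler`) gives `s`; `g' = glueK gm (bet s u)` (`glueK_isKahler`, `glueK_coh`), and by `scal_glueK`, `bet_inv`, `bet_dd`:
`scal g' = -(y²/(s e^u)) (ww + (e^u - f)/(4y²) + 1/(2y²)) = -(y²/(s e^u)) (e^u/(4y²)) = -1/(4s)`.
-/

namespace YT

open Complex Matrix MeasureTheory
open scoped ContDiff ComplexConjugate ComplexOrder

variable {κ : Type} [Fintype κ] [DecidableEq κ] {Γ : Subgroup (Matrix.SpecialLinearGroup (Fin 2) ℝ)}
  {S : Set ((Unit ⊕ κ → ℂ) → (Unit ⊕ κ → ℂ))} {gm : (Unit ⊕ κ → ℂ) → Matrix (Unit ⊕ κ) (Unit ⊕ κ) ℂ}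

theorem semiflat (hΓ : CocompactFuchsian Γ) (hS : Covers Γ S) (hg : IsKahler (tot κ halfPlane) S gm) (hs : IsSemiFlat gm) :
    ∃ g', IsKahler (tot κ halfPlane) S g' ∧ Cohomologous (tot κ halfPlane) S gm g' ∧ ∃ c : ℝ, ∀ x ∈ tot κ halfPlane, scal g' x = c := by
  obtain ⟨f, hfdef⟩ : ∃ f : (Unit → ℂ) → ℝ, f = fun x => 2 + 4 * (x ()).im ^ 2 * (ww gm x).re := ⟨_, rfl⟩
  have hfv : ∀ x, f x = 2 + 4 * (x ()).im ^ 2 * (ww gm x).re := fun x => by rw [hfdef]
  have him : ContDiff ℝ ∞ (fun x : Unit → ℂ => (x ()).im) :=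
    Complex.imCLM.contDiff.comp (contDiff_apply ℝ ℂ ())
  have hre : ContDiffOn ℝ ∞ (fun x => (ww gm x).re) halfPlane :=
    Complex.reCLM.contDiff.comp_contDiffOn (ww_smooth hg)
  have hf : ContDiffOn ℝ ∞ f halfPlane := by
    rw [hfdef]
    exact contDiffOn_const.add (((contDiff_const.mul (him.pow 2)).contDiffOn).mul hre)
  have hpos : ∀ x ∈ halfPlane, 0 < f x := by
    intro x hx
    have h1 := (ww_nonneg hg hs hx).1
    have h2 : 0 ≤ (x ()).im ^ 2 * (ww gm x).re := mul_nonneg (sq_nonneg _) h1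
    rw [hfv]
    linarith
  have hinv : ∀ γ ∈ Γ, ∀ x ∈ halfPlane, f (mob γ x) = f x := by
    intro γ hγ x hx
    have h1 : (ww gm x).re = ‖mj γ x‖ ^ 2 * (ww gm (mob γ x)).re := by
      rw [ww_inv hS hg hs hγ hx, Complex.mul_conj, Complex.normSq_eq_norm_sq, Complex.re_ofReal_mul]
    rw [hfv, hfv, im_mob γ hx, h1]
    ring
  obtain ⟨u, hu, hi, heq⟩ := KW.kazdan_warner hΓ hf hpos hinv
  obtain ⟨s, hs', hc⟩ := exists_scale hΓ (schurK_isKahler hS hg hs) hu hi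
  have hβ : IsKahler halfPlane (mobs Γ) (bet s u) := bet_isKahler hs' hu hi
  refine ⟨glueK gm (bet s u), glueK_isKahler hS hg hs hβ, glueK_coh hS hg hs hβ hc, -(1 / (4 * s)), ?_⟩
  intro x hx
  have hb : bas x ∈ halfPlane := hx
  have hy : 0 < (bas x ()).im := hb
  have hw : ww gm (bas x) = (((ww gm (bas x)).re : ℝ) : ℂ) := by
    apply Complex.ext
    · simp
    · simpa using (ww_nonneg hg hs hb).2
  rw [scal_glueK hg hs hβ hx, bet_inv hs' hb, bet_dd hs' hu hb, heq _ hb, hw, hfv]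
  rw [← Complex.ofReal_add, ← Complex.ofReal_add, ← Complex.ofReal_mul, ← Complex.ofReal_neg]
  congr 1
  have he := Real.exp_pos (u (bas x))
  field_simp
  ring

end YT
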