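import Pool.Agent.Lib.MP_464db4_gt.KT.JF

/-!
# KT-Sch: the Schur complement is a Kaehler form on the curve
-/

namespace YT

open Complex Matrix MeasureTheory
open scoped ContDiff ComplexConjugate ComplexOrder

variable {κ : Type} [Fintype κ] [DecidableEq κ] {Γ : Subgroup (Matrix.SpecialLinearGroup (Fin 2) ℝ)}
  {S : Set ((Unit ⊕ κ → ℂ) → (Unit ⊕ κ → ℂ))} {gm : (Unit ⊕ κ → ℂ) → Matrix (Unit ⊕ κ) (Unit ⊕ κ) ℂ}
  {x : Unit ⊕ κ → ℂ} {b : Unit → ℂ}

private theorem KTSch_det_ne (hg : IsKahler (tot κ halfPlane) S gm) (hb : b ∈ halfPlane) :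
    (hv gm b).det ≠ 0 := (hv_posDef hg hb).det_pos.ne'

private theorem KTSch_eq (hg : IsKahler (tot κ halfPlane) S gm) (hs : IsSemiFlat gm)
    (hb : b ∈ halfPlane) :
    schur gm b () () = (gm (pt b 0)).det / (hv gm b).det := by
  have h1 := det_semi hg hs (x := pt b 0) (pt_mem_tot hb 0)
  rw [bas_pt] at h1
  rw [h1, mul_comm, mul_div_assoc, div_self (KTSch_det_ne hg hb), mul_one]

theorem schurK_isKahler (hS : Covers Γ S) (hg : IsKahler (tot κ halfPlane) S gm) (hs : IsSemiFlat gm) :
    IsKahler halfPlane (mobs Γ) (schur gm) := by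
  constructor
  · intro i j
    have h1 : ContDiffOn ℝ ∞ (fun x => (gm x).det) (tot κ halfPlane) := by
      simp only [Matrix.det_apply']
      exact ContDiffOn.sum fun σ _ =>
        contDiffOn_const.mul (contDiffOn_prod fun i _ => hg.smooth _ _)
    have h2 : ContDiffOn ℝ ∞ (fun b : Unit → ℂ => (gm (pt b 0)).det) halfPlane :=
      contDiffOn_pt (f := fun x => (gm x).det) h1
    have h3 : ContDiffOn ℝ ∞ (fun b : Unit → ℂ => (hv gm b).det) halfPlane := by
      simp only [Matrix.det_apply']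
      exact ContDiffOn.sum fun σ _ =>
        contDiffOn_const.mul (contDiffOn_prod fun i _ => hv_smooth hg _ _)
    have h4 := h2.mul (h3.inv fun b hb => KTSch_det_ne hg hb)
    refine h4.congr fun b hb => ?_
    change schur gm b () () = _
    rw [KTSch_eq hg hs hb, div_eq_mul_inv]
    rfl
  · intro b hb
    have h1 := hg.pos (pt b 0) (pt_mem_tot hb 0)
    have h2 := h1
    rw [eq_fromBlocks h1.isHermitian] at h2
    exact schur_posDef h2
  · intro x _ i j k
    rfl
  · rintro _ ⟨γ, hγ, rfl⟩ b hb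
    obtain ⟨F, hFS, hF⟩ := hS.up γ hγ
    have hy : (pt b 0 : Unit ⊕ κ → ℂ) ∈ tot κ halfPlane := pt_mem_tot hb 0
    have e1 := covers_det_vert hg hs hFS hF hy
    have e2 := covers_det hg hs hFS hF hy
    have hbF : bas (F (pt b 0)) = mob γ b := by rw [hF _ hy, bas_pt]
    rw [det_semi hg hs (covers_mem hF hy), det_semi hg hs hy, hbF, bas_pt] at e2
    rw [bas_pt] at e1
    have e3 : (mj γ b * conj (mj γ b)) * schur gm (mob γ b) () () = schur gm b () () := by
      apply mul_left_cancel₀ (KTSch_det_ne hg hb)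
      rw [← e2, ← e1]
      ring
    ext i j
    have e4 : ((jac (mob γ) b)ᵀ * schur gm (mob γ b) * mconj (jac (mob γ) b)) i j =
        mj γ b * schur gm (mob γ b) () () * conj (mj γ b) := by
      simp only [Matrix.mul_apply, Finset.univ_unique, Finset.sum_singleton,
        Matrix.transpose_apply, mconj, Matrix.map_apply, jac_mob γ hb]
    rw [e4]
    change _ = schur gm b () ()
    rw [← e3]
    ring

end YT
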