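import Pool.Agent.Lib.MP_464db4_gt.KT.Res

/-!
# KT-Strong: the Ricci form of the semi-flat metrics
-/

namespace YT

open Complex Matrix MeasureTheory
open scoped ContDiff ComplexConjugate ComplexOrder

variable {κ : Type} [Fintype κ] [DecidableEq κ] {Γ : Subgroup (Matrix.SpecialLinearGroup (Fin 2) ℝ)}
  {S : Set ((Unit ⊕ κ → ℂ) → (Unit ⊕ κ → ℂ))} {gm : (Unit ⊕ κ → ℂ) → Matrix (Unit ⊕ κ) (Unit ⊕ κ) ℂ}
  {β' : (Unit → ℂ) → Matrix Unit Unit ℂ} {x : Unit ⊕ κ → ℂ}

theorem ddlog_glueK (hg : IsKahler (tot κ halfPlane) S gm) (hs : IsSemiFlat gm) (hβ : IsKahler halfPlane (mobs Γ) β')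
    (hx : x ∈ tot κ halfPlane) (i j : Unit ⊕ κ) :
    dz i (fun y => dzbar j (logdet (glueK gm β')) y) x =
      (fromBlocks (Matrix.of fun _ _ => ww gm (bas x) + dz () (fun y => dzbar () (logdet β') y) (bas x)) 0 0 0 :
        Matrix (Unit ⊕ κ) (Unit ⊕ κ) ℂ) i j := by
  have hb : bas x ∈ halfPlane := hx
  have hD : IsOpen (halfPlane : Set (Unit → ℂ)) := isOpen_halfPlane
  have hU : IsOpen (tot κ halfPlane) := isOpen_tot hD
  have hlog : ∀ y ∈ tot κ halfPlane, logdet (glueK gm β') y = ldm (hv gm) (bas y) + logdet β' (bas y) :=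
    fun y hy => logdet_glueK hg hs hβ hy
  have hs1 : ContDiffOn ℝ ∞ (logdet β') halfPlane := logdet_smooth hβ
  have hs0 : ContDiffOn ℝ ∞ (ldm (hv gm)) halfPlane :=
    ldm_smooth (fun i j => contDiffOn_pt (f := fun y => gm y (Sum.inr i) (Sum.inr j)) (hg.smooth _ _)) fun b hb =>
      vert_posDef (hg.pos _ (pt_mem_tot hb 0))
  have hd : ∀ b ∈ halfPlane, DifferentiableAt ℝ (logdet β') b := fun b hb => asm_diff hD hs1 hb
  have hd0 : ∀ b ∈ halfPlane, DifferentiableAt ℝ (ldm (hv gm)) b := fun b hb => asm_diff hD hs0 hb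
  have hdc : ∀ b ∈ halfPlane, DifferentiableAt ℝ (fun b => ldm (hv gm) b + logdet β' b) b := fun b hb => (hd0 b hb).add (hd b hb)
  have hd2 : DifferentiableAt ℝ (fun b => dzbar () (logdet β') b) (bas x) := asm_diff hD (dzbar_contDiffOn hD hs1 ()) hb
  have hd3 : DifferentiableAt ℝ (fun b => dzbar () (ldm (hv gm)) b) (bas x) := asm_diff hD (dzbar_contDiffOn hD hs0 ()) hb
  have hd4 : DifferentiableAt ℝ (fun b => dzbar () (ldm (hv gm)) b + dzbar () (logdet β') b) (bas x) := hd3.add hd2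
  have b1 : ∀ y ∈ tot κ halfPlane, dzbar (Sum.inl ()) (logdet (glueK gm β')) y =
      (fun b => dzbar () (ldm (hv gm)) b + dzbar () (logdet β') b) (bas y) := by
    intro y hy
    rw [dzbar_congr_on hU (h := fun y => (fun b => ldm (hv gm) b + logdet β' b) (bas y)) hlog hy, dzbar_bas_inl (hdc _ hy),
      dzbar_add () (hd0 _ hy) (hd _ hy)]
  have b2 : ∀ k : κ, ∀ y ∈ tot κ halfPlane, dzbar (Sum.inr k) (logdet (glueK gm β')) y = 0 := by
    intro k y hy
    rw [dzbar_congr_on hU (h := fun y => (fun b => ldm (hv gm) b + logdet β' b) (bas y)) hlog hy, dzbar_bas_inr (hdc _ hy)]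
  rcases j with j | k
  · rcases i with i | k
    · cases i
      cases j
      rw [dz_congr_on hU b1 hx, dz_bas_inl hd4, dz_add () hd3 hd2]
      rfl
    · cases j
      rw [dz_congr_on hU b1 hx, dz_bas_inr hd4]
      rfl
  · rw [dz_congr_on hU (h := fun _ => 0) (b2 k) hx, dz_const]
    rcases i with i | l <;> rfl

/-- The semi-flat metric with Ricci form `-lam π^* β'`. -/
theorem semiflat_strong (hΓ : CocompactFuchsian Γ) (hS : Covers Γ S) (hg : IsKahler (tot κ halfPlane) S gm) (hs : IsSemiFlat gm) :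
    ∃ (β' : (Unit → ℂ) → Matrix Unit Unit ℂ) (lam : ℝ), 0 < lam ∧ IsKahler halfPlane (mobs Γ) β' ∧
      IsKahler (tot κ halfPlane) S (glueK gm β') ∧ Cohomologous (tot κ halfPlane) S gm (glueK gm β') ∧
      (∀ x ∈ tot κ halfPlane, ∀ i j, dz i (fun y => dzbar j (logdet (glueK gm β')) y) x =
        (lam : ℂ) * (fromBlocks (β' (bas x)) 0 0 0 : Matrix (Unit ⊕ κ) (Unit ⊕ κ) ℂ) i j) ∧
      ∀ x ∈ tot κ halfPlane, scal (glueK gm β') x = ((-lam : ℝ) : ℂ) := by
  obtain ⟨f, hfdef⟩ : ∃ f : (Unit → ℂ) → ℝ, f = fun x => 2 + 4 * (x ()).im ^ 2 * (ww gm x).re := ⟨_, rfl⟩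
  have hfv : ∀ x, f x = 2 + 4 * (x ()).im ^ 2 * (ww gm x).re := fun x => by rw [hfdef]
  have him : ContDiff ℝ ∞ (fun x : Unit → ℂ => (x ()).im) :=
    Complex.imCLM.contDiff.comp (contDiff_apply ℝ ℂ ())
  have hre : ContDiffOn ℝ ∞ (fun x => (ww gm x).re) halfPlane :=
    Complex.reCLM.contDiff.comp_contDiffOn (ww_smooth hg)
  have hf : ContDiffOn ℝ ∞ f halfPlane := by
    rw [hfdef]
    exact contDiffOn_const.add (((contDiff_const.mul (him.pow 2)).contDiffOn).mul hre)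
  have hpos : ∀ x ∈ halfPlane, 0 < f x := by
    intro x hx
    have h1 := (ww_nonneg hg hs hx).1
    have h2 : 0 ≤ (x ()).im ^ 2 * (ww gm x).re := mul_nonneg (sq_nonneg _) h1
    rw [hfv]
    linarith
  have hinv : ∀ γ ∈ Γ, ∀ x ∈ halfPlane, f (mob γ x) = f x := by
    intro γ hγ x hx
    have h1 : (ww gm x).re = ‖mj γ x‖ ^ 2 * (ww gm (mob γ x)).re := by
      rw [ww_inv hS hg hs hγ hx, Complex.mul_conj, Complex.normSq_eq_norm_sq, Complex.re_ofReal_mul]
    rw [hfv, hfv, im_mob γ hx, h1]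
    ring
  obtain ⟨u, hu, hi, heq⟩ := KW.kazdan_warner hΓ hf hpos hinv
  obtain ⟨s, hs', hc⟩ := exists_scale hΓ (schurK_isKahler hS hg hs) hu hi
  have hβ : IsKahler halfPlane (mobs Γ) (bet s u) := bet_isKahler hs' hu hi
  have key : ∀ b ∈ halfPlane, ww gm b + dz () (fun y => dzbar () (logdet (bet s u)) y) b =
      ((1 / (4 * s) : ℝ) : ℂ) * bet s u b () () := by
    intro b hb
    have hy : 0 < (b ()).im := hb
    have hw : ww gm b = (((ww gm b).re : ℝ) : ℂ) := by
      apply Complex.ext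
      · simp
      · simpa using (ww_nonneg hg hs hb).2
    have e : bet s u b () () = ((s * Real.exp (u b) / (b ()).im ^ 2 : ℝ) : ℂ) := rfl
    rw [e, bet_dd hs' hu hb, heq _ hb, hw, hfv]
    rw [← Complex.ofReal_add, ← Complex.ofReal_add, ← Complex.ofReal_mul]
    congr 1
    field_simp
    ring
  refine ⟨bet s u, 1 / (4 * s), by positivity, hβ, glueK_isKahler hS hg hs hβ, glueK_coh hS hg hs hβ hc, ?_, ?_⟩
  · intro x hx i j
    have hb : bas x ∈ halfPlane := hx
    rw [ddlog_glueK hg hs hβ hx i j, key _ hb]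
    rcases i with i | i <;> rcases j with j | j
    · cases i
      cases j
      rfl
    all_goals
      simp
  · intro x hx
    have hb : bas x ∈ halfPlane := hx
    have hy : 0 < (bas x ()).im := hb
    have he := Real.exp_pos (u (bas x))
    have e : bet s u (bas x) () () = ((s * Real.exp (u (bas x)) / (bas x ()).im ^ 2 : ℝ) : ℂ) := rfl
    rw [scal_glueK hg hs hβ hx, key _ hb, bet_inv hs' hb, e]
    rw [← Complex.ofReal_mul, ← Complex.ofReal_mul, ← Complex.ofReal_neg]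
    congr 1
    field_simp

/-- The Schur complement of the glued form at every point. -/
theorem schur_glueK (hg : IsKahler (tot κ halfPlane) S gm) (hs : IsSemiFlat gm) (hx : x ∈ tot κ halfPlane) :
    (glueK gm β' x).toBlocks₁₁ - (glueK gm β' x).toBlocks₁₂ * ((glueK gm β' x).toBlocks₂₂)⁻¹ * ((glueK gm β' x).toBlocks₁₂)ᴴ =
      β' (bas x) := by
  rw [glueK_eq hg hs hx]
  simp only [toBlocks_fromBlocks₁₁, toBlocks_fromBlocks₁₂, toBlocks_fromBlocks₂₂]
  rw [add_sub_cancel_right]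

end YT
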